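import Pool.Agent.EqTiling.Polygon

namespace Pool.Agent.EqTiling

open Set MeasureTheory

/-- the standard triangle in the real plane -/
def stdTri : Set (ℝ × ℝ) := {p | 0 ≤ p.1 ∧ 0 ≤ p.2 ∧ p.1 + p.2 ≤ 1}

lemma measurableSet_stdTri : MeasurableSet stdTri := by
  unfold stdTri
  apply MeasurableSet.inter
  · exact measurableSet_le measurable_const measurable_fst
  apply MeasurableSet.inter
  · exact measurableSet_le measurable_const measurable_snd
  · exact measurableSet_le (measurable_fst.add measurable_snd) measurable_const

lemma volume_stdTri : volume stdTri = ENNReal.ofReal (1 / 2) := by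
  rw [Measure.volume_eq_prod, Measure.prod_apply measurableSet_stdTri]
  have h1 : ∀ x : ℝ, volume (Prod.mk x ⁻¹' stdTri) =
      (Icc (0:ℝ) 1).indicator (fun x => ENNReal.ofReal (1 - x)) x := by
    intro x
    by_cases hx : x ∈ Icc (0:ℝ) 1
    · rw [indicator_of_mem hx]
      have : Prod.mk x ⁻¹' stdTri = Icc 0 (1 - x) := by
        ext y
        simp only [stdTri, mem_preimage, mem_ofPred_eq, mem_Icc]
        constructor
        · rintro ⟨_, h2, h3⟩; exact ⟨h2, by linarith⟩
        · rintro ⟨h2, h3⟩; exact ⟨hx.1, h2, by linarith⟩
      rw [this, Real.volume_Icc, sub_zero]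
    · rw [indicator_of_notMem hx]
      have : Prod.mk x ⁻¹' stdTri = ∅ := by
        ext y
        simp only [stdTri, mem_preimage, mem_ofPred_eq, mem_empty_iff_false, iff_false]
        rintro ⟨h1, h2, h3⟩
        exact hx ⟨h1, by linarith⟩
      rw [this, measure_empty]
  simp_rw [h1]
  rw [lintegral_indicator measurableSet_Icc,
    ← ofReal_integral_eq_lintegral_ofReal]
  · congr 1
    rw [integral_Icc_eq_integral_Ioc, ← intervalIntegral.integral_of_le zero_le_one,
      intervalIntegral.integral_sub (by simp) (by simp)]
    simp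
    norm_num
  · exact (continuous_const.sub continuous_id).integrableOn_Icc
  · filter_upwards [ae_restrict_mem measurableSet_Icc] with x hx
    simp only [Pi.zero_apply, sub_nonneg]
    exact hx.2

/-- the linear map with prescribed images of `1` and `I` -/
noncomputable def linMap (u w : ℂ) : ℂ →ₗ[ℝ] ℂ :=
  Complex.reLm.smulRight u + Complex.imLm.smulRight w

lemma linMap_apply (u w z : ℂ) : linMap u w z = z.re • u + z.im • w := by
  simp [linMap]

lemma linMap_det (u w : ℂ) : LinearMap.det (linMap u w) = u.re * w.im - u.im * w.re := by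
  rw [← LinearMap.det_toMatrix Complex.basisOneI, Matrix.det_fin_two]
  simp [LinearMap.toMatrix_apply, linMap_apply, Complex.coe_basisOneI_repr]
  ring

/-- Volume of a triangle. -/
lemma volume_tri {a b c : ℂ} (h : 0 < ori a b c) :
    volume {x | 0 ≤ ori a b x ∧ 0 ≤ ori b c x ∧ 0 ≤ ori c a x} =
      ENNReal.ofReal (ori a b c / 2) := by
  set T : Set ℂ := {z | 0 ≤ z.re ∧ 0 ≤ z.im ∧ z.re + z.im ≤ 1} with hT
  have hTvol : volume T = ENNReal.ofReal (1 / 2) := by
    have : T = Complex.measurableEquivRealProd ⁻¹' stdTri := by
      ext z; simp [hT, stdTri, Complex.measurableEquivRealProd]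
    rw [this, Complex.volume_preserving_equiv_real_prod.measure_preimage_equiv, volume_stdTri]
  have himg : {x | 0 ≤ ori a b x ∧ 0 ≤ ori b c x ∧ 0 ≤ ori c a x} =
      (fun y => a + y) '' (linMap (b - a) (c - a) '' T) := by
    ext x
    simp only [mem_ofPred_eq, mem_image]
    set D := ori a b c with hD
    constructor
    · rintro ⟨h1, h2, h3⟩
      have hid : D • (x - a) = ori c a x • (b - a) + ori a b x • (c - a) := by
        rw [hD]
        apply Complex.ext <;>
        simp only [ori, Complex.sub_re, Complex.sub_im, Complex.add_re, Complex.add_im,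
          Complex.real_smul, Complex.mul_re, Complex.mul_im, Complex.ofReal_re,
          Complex.ofReal_im] <;> ring
      refine ⟨x - a, ⟨⟨ori c a x / D, ori a b x / D⟩, ⟨?_, ?_, ?_⟩, ?_⟩, ?_⟩
      · exact div_nonneg h3 h.le
      · exact div_nonneg h1 h.le
      · show ori c a x / D + ori a b x / D ≤ 1
        rw [← add_div, div_le_one h]
        have : ori a b x + ori b c x + ori c a x = D := by
          rw [hD]; simp only [ori, Complex.sub_re, Complex.sub_im]; ring
        linarith
      · rw [linMap_apply]
        show (ori c a x / D) • (b - a) + (ori a b x / D) • (c - a) = x - a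
        rw [div_eq_inv_mul, div_eq_inv_mul, mul_smul, mul_smul, ← smul_add, ← hid, smul_smul,
          inv_mul_cancel₀ h.ne', one_smul]
      · ring
    · rintro ⟨y, ⟨z, ⟨h1, h2, h3⟩, rfl⟩, rfl⟩
      rw [linMap_apply]
      have e1 : ori a b (a + (z.re • (b - a) + z.im • (c - a))) = z.im * D := by
        rw [hD]
        simp only [ori, Complex.sub_re, Complex.sub_im, Complex.add_re, Complex.add_im,
          Complex.real_smul, Complex.mul_re, Complex.mul_im, Complex.ofReal_re,
          Complex.ofReal_im]; ring
      have e2 : ori b c (a + (z.re • (b - a) + z.im • (c - a))) = (1 - z.re - z.im) * D := by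
        rw [hD]
        simp only [ori, Complex.sub_re, Complex.sub_im, Complex.add_re, Complex.add_im,
          Complex.real_smul, Complex.mul_re, Complex.mul_im, Complex.ofReal_re,
          Complex.ofReal_im]; ring
      have e3 : ori c a (a + (z.re • (b - a) + z.im • (c - a))) = z.re * D := by
        rw [hD]
        simp only [ori, Complex.sub_re, Complex.sub_im, Complex.add_re, Complex.add_im,
          Complex.real_smul, Complex.mul_re, Complex.mul_im, Complex.ofReal_re,
          Complex.ofReal_im]; ring
      rw [e1, e2, e3]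
      exact ⟨mul_nonneg h2 h.le, mul_nonneg (by linarith) h.le, mul_nonneg h1 h.le⟩
  rw [himg, image_add_left, measure_preimage_add, Measure.addHaar_image_linearMap, linMap_det, hTvol,
    ← ENNReal.ofReal_mul (abs_nonneg _)]
  congr 1
  have : (b - a).re * (c - a).im - (b - a).im * (c - a).re = ori a b c := rfl
  rw [this, abs_of_pos h]
  ring

lemma volume_line {a b : ℂ} (h : a ≠ b) : volume {x | ori a b x = 0} = 0 := by
  set f : ℂ →ₗ[ℝ] ℝ := (b - a).re • Complex.imLm - (b - a).im • Complex.reLm with hf
  set s : AffineSubspace ℝ ℂ := AffineSubspace.mk' a (LinearMap.ker f) with hs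
  have hset : {x | ori a b x = 0} = (s : Set ℂ) := by
    ext x
    simp only [mem_ofPred_eq, hs, SetLike.mem_coe, AffineSubspace.mem_mk', LinearMap.mem_ker]
    simp [hf, ori]
  rw [hset]
  apply Measure.addHaar_affineSubspace
  intro htop
  have h1 : a + Complex.I * (b - a) ∈ s := by rw [htop]; trivial
  have h2 : a + Complex.I * (b - a) ∈ {x | ori a b x = 0} := by rw [hset]; exact h1
  simp only [mem_ofPred_eq, ori] at h2
  have h3 : (b - a).re * (b - a).re + (b - a).im * (b - a).im = 0 := by
    simp only [Complex.sub_re, Complex.sub_im, Complex.add_re, Complex.add_im, Complex.mul_re,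
      Complex.mul_im, Complex.I_re, Complex.I_im] at h2 ⊢
    linarith
  have h4 : (b - a).re = 0 := by nlinarith [mul_self_nonneg (b - a).re, mul_self_nonneg (b - a).im]
  have h5 : (b - a).im = 0 := by nlinarith [mul_self_nonneg (b - a).re, mul_self_nonneg (b - a).im]
  apply h
  have : b - a = 0 := Complex.ext h4 h5
  exact (sub_eq_zero.mp this).symm

/-- membership in the hull of the first `n` vertices, without a closing vertex -/
lemma CCW.mem_hull_iff' {n : ℕ} {v : ℕ → ℂ} (hn : 3 ≤ n) (h : CCW n v) (x : ℂ) :
    x ∈ convexHull ℝ (v '' Iio n) ↔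
      (∀ k, k + 1 < n → 0 ≤ ori (v k) (v (k + 1)) x) ∧ 0 ≤ ori (v (n - 1)) (v 0) x := by
  set w : ℕ → ℂ := fun k => if k < n then v k else v 0 with hw
  have hwv : ∀ k < n, w k = v k := fun k hk => by simp [hw, hk]
  have himg : v '' Iio n = w '' Iio n := by
    apply image_congr
    intro k hk
    exact (hwv k hk).symm
  have hcc : CCW n w := by
    intro i j k hij hjk hk
    rw [hwv i (by omega), hwv j (by omega), hwv k hk]
    exact h i j k hij hjk hk
  have hcl : w n = w 0 := by
    rw [hwv 0 (by omega)]; simp [hw]
  rw [himg, hcc.mem_hull_iff hn hcl]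
  constructor
  · intro hx
    refine ⟨fun k hk => ?_, ?_⟩
    · have := hx k (by omega)
      rwa [hwv k (by omega), hwv (k + 1) hk] at this
    · have := hx (n - 1) (by omega)
      rwa [show n - 1 + 1 = n by omega, hcl, hwv (n - 1) (by omega), hwv 0 (by omega)] at this
  · rintro ⟨h1, h2⟩ k hk
    rcases Nat.lt_or_ge (k + 1) n with h3 | h3
    · rw [hwv k hk, hwv (k + 1) h3]; exact h1 k h3
    · have : k = n - 1 := by omega
      rw [this, show n - 1 + 1 = n by omega, hcl, hwv (n - 1) (by omega), hwv 0 (by omega)]
      exact h2

lemma CCW.measurable_hull {n : ℕ} {v : ℕ → ℂ} :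
    MeasurableSet (convexHull ℝ (v '' Iio n)) :=
  ((((finite_Iio n).image v).isCompact_convexHull ℝ).isClosed).measurableSet

/-- fan formula for the area -/
theorem CCW.volume_hull_fan {v : ℕ → ℂ} (n : ℕ) : 3 ≤ n → CCW n v →
    volume (convexHull ℝ (v '' Iio n)) =
      ENNReal.ofReal ((∑ k ∈ Finset.range (n - 2), ori (v 0) (v (k + 1)) (v (k + 2))) / 2) := by
  induction n with
  | zero => intro h; omega
  | succ n ih =>
    intro hn h
    rcases Nat.lt_or_ge n 3 with h3 | h3
    · have hn2 : n = 2 := by omega
      subst hn2
      have hpos : 0 < ori (v 0) (v 1) (v 2) := h 0 1 2 (by norm_num) (by norm_num) (by norm_num)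
      have hset : convexHull ℝ (v '' Iio (2 + 1)) =
          {x | 0 ≤ ori (v 0) (v 1) x ∧ 0 ≤ ori (v 1) (v 2) x ∧ 0 ≤ ori (v 2) (v 0) x} := by
        ext x
        rw [h.mem_hull_iff' hn]
        constructor
        · rintro ⟨h1, h2⟩
          exact ⟨h1 0 (by norm_num), h1 1 (by norm_num), h2⟩
        · rintro ⟨h1, h2, h3⟩
          refine ⟨fun k hk => ?_, h3⟩
          have : k = 0 ∨ k = 1 := by omega
          rcases this with rfl | rfl
          · exact h1
          · exact h2
      rw [hset, volume_tri hpos]
      simp
    · have hc' : CCW n v := h.mono (Nat.le_succ n)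
      have ih' := ih h3 hc'
      set P := convexHull ℝ (v '' Iio (n + 1)) with hP
      set Q := convexHull ℝ (v '' Iio n) with hQ
      have hpos : 0 < ori (v 0) (v (n - 1)) (v n) := h 0 (n - 1) n (by omega) (by omega) (by omega)
      set R : Set ℂ := {x | 0 ≤ ori (v 0) (v (n - 1)) x ∧ 0 ≤ ori (v (n - 1)) (v n) x ∧
        0 ≤ ori (v n) (v 0) x} with hR
      have hne : v 0 ≠ v (n - 1) := by
        intro he
        rw [← he] at hpos
        simp [ori] at hpos
      have hQP : Q ⊆ P := convexHull_mono (image_mono (fun k hk => lt_trans hk (Nat.lt_succ_self n)))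
      have hRP : R ⊆ P := by
        -- the triangle is the hull of three vertices
        intro x hx
        set w : ℕ → ℂ := fun k => if k = 0 then v 0 else if k = 1 then v (n - 1) else v n with hw
        have hcw : CCW 3 w := by
          intro i j k hij hjk hk
          have hi : i = 0 := by omega
          have hj : j = 1 := by omega
          have hkk : k = 2 := by omega
          subst hi; subst hj; subst hkk
          simpa [hw] using hpos
        have hxw : x ∈ convexHull ℝ (w '' Iio 3) := by
          rw [hcw.mem_hull_iff' (le_refl 3)]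
          refine ⟨fun k hk => ?_, ?_⟩
          · have : k = 0 ∨ k = 1 := by omega
            rcases this with rfl | rfl
            · simpa [hw] using hx.1
            · simpa [hw] using hx.2.1
          · simpa [hw] using hx.2.2
        refine convexHull_mono ?_ hxw
        rintro _ ⟨k, hk, rfl⟩
        simp only [mem_Iio] at hk
        have : k = 0 ∨ k = 1 ∨ k = 2 := by omega
        rcases this with rfl | rfl | rfl
        · exact ⟨0, by simp, by simp [hw]⟩
        · exact ⟨n - 1, by simp, by simp [hw]⟩
        · exact ⟨n, by simp, by simp [hw]⟩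
      have hunion : P = Q ∪ R := by
        apply Subset.antisymm
        · intro x hx
          have hx' := (h.mem_hull_iff' hn x).mp hx
          obtain ⟨h1, h2⟩ := hx'
          rw [show n + 1 - 1 = n by omega] at h2
          by_cases hs : 0 ≤ ori (v 0) (v (n - 1)) x
          · right
            refine ⟨hs, ?_, h2⟩
            have := h1 (n - 1) (by omega)
            rwa [show n - 1 + 1 = n by omega] at this
          · left
            rw [hQ, hc'.mem_hull_iff' h3]
            refine ⟨fun k hk => h1 k (by omega), ?_⟩
            rw [ori_swap]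
            linarith
        · exact union_subset hQP hRP
      have hinter : Q ∩ R ⊆ {x | ori (v 0) (v (n - 1)) x = 0} := by
        rintro x ⟨hxQ, hxR⟩
        rw [hQ, hc'.mem_hull_iff' h3] at hxQ
        have h1 := hxQ.2
        rw [ori_swap] at h1
        exact le_antisymm (by linarith) hxR.1
      have hRm : MeasurableSet R := by
        rw [hR]
        refine MeasurableSet.inter ?_ (MeasurableSet.inter ?_ ?_)
        · exact (isClosed_le continuous_const (continuous_ori _ _)).measurableSet
        · exact (isClosed_le continuous_const (continuous_ori _ _)).measurableSet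
        · exact (isClosed_le continuous_const (continuous_ori _ _)).measurableSet
      have hdisj : AEDisjoint volume Q R :=
        measure_mono_null hinter (volume_line hne)
      rw [hunion, measure_union₀ hRm.nullMeasurableSet hdisj, ih', hR, volume_tri hpos,
        ← ENNReal.ofReal_add]
      · congr 1
        rw [show n + 1 - 2 = (n - 2) + 1 by omega, Finset.sum_range_succ,
          show n - 2 + 1 = n - 1 by omega, show n - 2 + 2 = n by omega]
        ring
      · apply div_nonneg _ zero_le_two
        apply Finset.sum_nonneg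
        intro k hk
        rw [Finset.mem_range] at hk
        exact (h 0 (k + 1) (k + 2) (by omega) (by omega) (by omega)).le
      · exact (half_pos hpos).le

/-- the cross product of position vectors -/
def crs (z w : ℂ) : ℝ := z.re * w.im - z.im * w.re

lemma fan_eq_shoelace (v : ℕ → ℂ) (n : ℕ) :
    ∑ k ∈ Finset.range n, ori (v 0) (v (k + 1)) (v (k + 2)) =
      ∑ k ∈ Finset.range (n + 1), crs (v k) (v (k + 1)) + crs (v (n + 1)) (v 0) := by
  induction n with
  | zero => simp [crs]; ring
  | succ n ih =>
    rw [Finset.sum_range_succ, ih, Finset.sum_range_succ _ (n + 1)]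
    simp only [ori, crs, Complex.sub_re, Complex.sub_im]
    ring

/-- shoelace formula -/
theorem CCW.volume_hull {v : ℕ → ℂ} {n : ℕ} (hn : 3 ≤ n) (h : CCW n v) (hc : v n = v 0) :
    volume (convexHull ℝ (v '' Iio n)) =
      ENNReal.ofReal ((∑ k ∈ Finset.range n, crs (v k) (v (k + 1))) / 2) := by
  rw [h.volume_hull_fan n hn, fan_eq_shoelace]
  congr 2
  rw [show n - 2 + 1 = n - 1 by omega, ← hc]
  conv_rhs => rw [show n = (n - 1) + 1 by omega, Finset.sum_range_succ]
  rw [show n - 1 + 1 = n by omega]

end Pool.Agent.EqTiling
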