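import Pool.Agent.EqTiling.Data

set_option autoImplicit false
set_option linter.unusedSimpArgs false

namespace Pool.Agent.EqTiling

/-- residue modulo 4 -/
def cls {m : ℕ} (j : ZMod (4 * m)) : Fin 4 :=
  (ZMod.castHom (Dvd.intro m rfl : 4 ∣ 4 * m) (ZMod 4) j : ZMod 4)

variable {m : ℕ}

lemma cls_add (i j : ZMod (4 * m)) : cls (i + j) = cls i + cls j :=
  map_add (ZMod.castHom (Dvd.intro m rfl : 4 ∣ 4 * m) (ZMod 4)) i j

lemma cls_sub (i j : ZMod (4 * m)) : cls (i - j) = cls i - cls j :=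
  map_sub (ZMod.castHom (Dvd.intro m rfl : 4 ∣ 4 * m) (ZMod 4)) i j

lemma cls_nat (n : ℕ) : cls ((n : ℕ) : ZMod (4 * m)) = ((n : ℕ) : ZMod 4) :=
  map_natCast (ZMod.castHom (Dvd.intro m rfl : 4 ∣ 4 * m) (ZMod 4)) n

lemma cls_one : cls (1 : ZMod (4 * m)) = 1 :=
  map_one (ZMod.castHom (Dvd.intro m rfl : 4 ∣ 4 * m) (ZMod 4))

lemma cls_zero : cls (0 : ZMod (4 * m)) = 0 :=
  map_zero (ZMod.castHom (Dvd.intro m rfl : 4 ∣ 4 * m) (ZMod 4))

lemma cls_two : cls (2 : ZMod (4 * m)) = 2 :=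
  map_ofNat (ZMod.castHom (Dvd.intro m rfl : 4 ∣ 4 * m) (ZMod 4)) 2

lemma cls_four : cls (4 : ZMod (4 * m)) = 0 :=
  map_ofNat (ZMod.castHom (Dvd.intro m rfl : 4 ∣ 4 * m) (ZMod 4)) 4

lemma od_add_one (j : ZMod (4 * m)) : od (cls (j + 1)) = 1 - od (cls j) := by
  rw [cls_add, cls_one]; generalize cls j = t; revert t; decide

lemma od_sub_one (j : ZMod (4 * m)) : od (cls (j - 1)) = 1 - od (cls j) := by
  rw [cls_sub, cls_one]; generalize cls j = t; revert t; decide

lemma od_add_two (j : ZMod (4 * m)) : od (cls (j + 2)) = od (cls j) := by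
  rw [cls_add, cls_two]; generalize cls j = t; revert t; decide

lemma od_sub_two (j : ZMod (4 * m)) : od (cls (j - 2)) = od (cls j) := by
  rw [cls_sub, cls_two]; generalize cls j = t; revert t; decide

lemma od_zero_or (t : Fin 4) : od t = 0 ∨ od t = 1 := by revert t; decide

/-- tiles -/
abbrev Tl (m : ℕ) := ZMod (4 * m) × ℕ × ℕ

/-- is an octagon -/
def IsW (i : Tl m) : Prop := cls i.1 = 0 ∧ i.2.1 = 0 ∧ i.2.2 = 0

instance (i : Tl m) : Decidable (IsW i) := by unfold IsW; infer_instance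

/-- number of edges -/
def NN (i : Tl m) : ℕ := if IsW i then 8 else 6

/-- vertices -/
def VV (B T : ZMod (4 * m) → ℕ → ℕ → ℂ) (i : Tl m) : ℕ → ℂ
  | 0 => if IsW i then B (i.1 - 2) 0 0 else B i.1 i.2.1 i.2.2
  | 1 => match i with
    | (j, a, 0) => B (j - 1) 0 (a + od (cls j))
    | (j, a, b + 1) => T j a b
  | 2 => B i.1 (i.2.1 + 1) i.2.2
  | 3 => T i.1 i.2.1 i.2.2
  | 4 => B i.1 i.2.1 (i.2.2 + 1)
  | 5 => match i with
    | (j, 0, b) => B (j + 1) (b + od (cls j)) 0
    | (j, a + 1, b) => T j a b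
  | 6 => if IsW i then B (i.1 + 2) 0 0 else B i.1 i.2.1 i.2.2
  | 7 => 0
  | _ => if IsW i then B (i.1 - 2) 0 0 else B i.1 i.2.1 i.2.2

/-- matching of the edges -/
def mu (i : Tl m) : ℕ → Tl m × ℕ
  | 0 => match i with
    | (j, a, b + 1) => ((j, a, b), 3)
    | (j, a, 0) => if a + od (cls j) = 0 then ((j - 2, 0, 0), 5)
        else ((j - 1, 0, a + od (cls j) - 1), 4)
  | 1 => match i with
    | (j, a, b + 1) => ((j, a + 1, b), 4)
    | (j, a, 0) => ((j - 1, 0, a + od (cls j)), 5)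
  | 2 => ((i.1, i.2.1 + 1, i.2.2), 5)
  | 3 => ((i.1, i.2.1, i.2.2 + 1), 0)
  | 4 => match i with
    | (j, a + 1, b) => ((j, a, b + 1), 1)
    | (j, 0, b) => ((j + 1, b + od (cls j), 0), 0)
  | 5 => match i with
    | (j, a + 1, b) => ((j, a, b), 2)
    | (j, 0, b) => if b + od (cls j) = 0 then ((j + 2, 0, 0), 0)
        else ((j + 1, b + od (cls j) - 1, 0), 1)
  | 6 => ((i.1 + 4, 0, 0), 7)
  | _ => ((i.1 - 4, 0, 0), 6)

section

variable (j : ZMod (4 * m)) (a b : ℕ)

lemma mu0s : mu (j, a, b + 1) 0 = ((j, a, b), 3) := rfl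
lemma mu0z (h : a + od (cls j) = 0) : mu (j, a, 0) 0 = ((j - 2, 0, 0), 5) := by
  show (if a + od (cls j) = 0 then _ else _) = _
  rw [if_pos h]
lemma mu0n (h : a + od (cls j) ≠ 0) : mu (j, a, 0) 0 = ((j - 1, 0, a + od (cls j) - 1), 4) := by
  show (if a + od (cls j) = 0 then _ else _) = _
  rw [if_neg h]
lemma mu1s : mu (j, a, b + 1) 1 = ((j, a + 1, b), 4) := rfl
lemma mu1z : mu (j, a, 0) 1 = ((j - 1, 0, a + od (cls j)), 5) := rfl
lemma mu2 : mu (j, a, b) 2 = ((j, a + 1, b), 5) := rfl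
lemma mu3 : mu (j, a, b) 3 = ((j, a, b + 1), 0) := rfl
lemma mu4s : mu (j, a + 1, b) 4 = ((j, a, b + 1), 1) := rfl
lemma mu4z : mu (j, 0, b) 4 = ((j + 1, b + od (cls j), 0), 0) := rfl
lemma mu5s : mu (j, a + 1, b) 5 = ((j, a, b), 2) := rfl
lemma mu5z (h : b + od (cls j) = 0) : mu (j, 0, b) 5 = ((j + 2, 0, 0), 0) := by
  show (if b + od (cls j) = 0 then _ else _) = _
  rw [if_pos h]
lemma mu5n (h : b + od (cls j) ≠ 0) : mu (j, 0, b) 5 = ((j + 1, b + od (cls j) - 1, 0), 1) := by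
  show (if b + od (cls j) = 0 then _ else _) = _
  rw [if_neg h]
lemma mu6 : mu (j, a, b) 6 = ((j + 4, 0, 0), 7) := rfl
lemma mu7 : mu (j, a, b) 7 = ((j - 4, 0, 0), 6) := rfl

end

lemma NN_le (i : Tl m) : 6 ≤ NN i := by unfold NN; split_ifs <;> omega

lemma mu_invol (i : Tl m) (k : ℕ) (hk : k < NN i) : mu (mu i k).1 (mu i k).2 = (i, k) := by
  obtain ⟨j, a, b⟩ := i
  have hk8 : k < 8 := by
    unfold NN at hk
    split_ifs at hk <;> omega
  have hod := od_zero_or (cls j)
  have h1 := od_sub_one j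
  have h2 := od_add_one j
  interval_cases k
  · rcases b with _ | b
    · by_cases h : a + od (cls j) = 0
      · rw [mu0z _ _ h]
        show mu (j - 2, 0, 0) 5 = _
        rw [mu5z _ _ (by rw [od_sub_two]; omega)]
        have : a = 0 := by omega
        subst this
        simp
      · rw [mu0n _ _ h]
        show mu (j - 1, 0, a + od (cls j) - 1) 4 = _
        rw [mu4z, od_sub_one]
        have : a + od (cls j) - 1 + (1 - od (cls j)) = a := by omega
        rw [this]
        simp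
    · rfl
  · rcases b with _ | b
    · rw [mu1z]
      show mu (j - 1, 0, a + od (cls j)) 5 = _
      rw [mu5n _ _ (by rw [od_sub_one]; omega), od_sub_one]
      have : a + od (cls j) + (1 - od (cls j)) - 1 = a := by omega
      rw [this]
      simp
    · rfl
  · rfl
  · rfl
  · rcases a with _ | a
    · rw [mu4z]
      show mu (j + 1, b + od (cls j), 0) 0 = _
      rw [mu0n _ _ (by rw [od_add_one]; omega), od_add_one]
      have : b + od (cls j) + (1 - od (cls j)) - 1 = b := by omega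
      rw [this]
      simp
    · rfl
  · rcases a with _ | a
    · by_cases h : b + od (cls j) = 0
      · rw [mu5z _ _ h]
        show mu (j + 2, 0, 0) 0 = _
        rw [mu0z _ _ (by rw [od_add_two]; omega)]
        have : b = 0 := by omega
        subst this
        simp
      · rw [mu5n _ _ h]
        show mu (j + 1, b + od (cls j) - 1, 0) 1 = _
        rw [mu1z, od_add_one]
        have : b + od (cls j) - 1 + (1 - od (cls j)) = b := by omega
        rw [this]
        simp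
    · rfl
  · have hW : IsW (j, a, b) := by
      by_contra h
      unfold NN at hk
      rw [if_neg h] at hk
      omega
    obtain ⟨_, ha, hb⟩ := hW
    simp only at ha hb
    subst ha hb
    rw [mu6]
    show mu (j + 4, 0, 0) 7 = _
    rw [mu7]
    simp
  · have hW : IsW (j, a, b) := by
      by_contra h
      unfold NN at hk
      rw [if_neg h] at hk
      omega
    obtain ⟨_, ha, hb⟩ := hW
    simp only at ha hb
    subst ha hb
    rw [mu7]
    show mu (j - 4, 0, 0) 6 = _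
    rw [mu6]
    simp

section

variable (B T : ZMod (4 * m) → ℕ → ℕ → ℂ) (j : ZMod (4 * m)) (a b : ℕ)

lemma VV0 (h : ¬ IsW (j, a, b)) : VV B T (j, a, b) 0 = B j a b := by
  show (if IsW (j, a, b) then _ else _) = _
  rw [if_neg h]
lemma VV0W (h : IsW (j, a, b)) : VV B T (j, a, b) 0 = B (j - 2) 0 0 := by
  show (if IsW (j, a, b) then _ else _) = _
  rw [if_pos h]
lemma VV1z : VV B T (j, a, 0) 1 = B (j - 1) 0 (a + od (cls j)) := rfl
lemma VV1s : VV B T (j, a, b + 1) 1 = T j a b := rfl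
lemma VV2 : VV B T (j, a, b) 2 = B j (a + 1) b := rfl
lemma VV3 : VV B T (j, a, b) 3 = T j a b := rfl
lemma VV4 : VV B T (j, a, b) 4 = B j a (b + 1) := rfl
lemma VV5z : VV B T (j, 0, b) 5 = B (j + 1) (b + od (cls j)) 0 := rfl
lemma VV5s : VV B T (j, a + 1, b) 5 = T j a b := rfl
lemma VV6 (h : ¬ IsW (j, a, b)) : VV B T (j, a, b) 6 = B j a b := by
  show (if IsW (j, a, b) then _ else _) = _
  rw [if_neg h]
lemma VV6W (h : IsW (j, a, b)) : VV B T (j, a, b) 6 = B (j + 2) 0 0 := by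
  show (if IsW (j, a, b) then _ else _) = _
  rw [if_pos h]
lemma VV7 : VV B T (j, a, b) 7 = 0 := rfl
lemma VV8W (h : IsW (j, a, b)) : VV B T (j, a, b) 8 = B (j - 2) 0 0 := by
  show (if IsW (j, a, b) then _ else _) = _
  rw [if_pos h]

end

lemma not_isW_of_od {j : ZMod (4 * m)} (a b : ℕ) (h : od (cls j) ≠ 0) : ¬ IsW (j, a, b) := by
  rintro ⟨h1, -, -⟩
  apply h
  show od (cls j) = 0
  rw [show cls j = 0 from h1]; rfl

lemma not_isW_a (j : ZMod (4 * m)) (a b : ℕ) (h : a + b ≠ 0) : ¬ IsW (j, a, b) := by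
  rintro ⟨-, h1, h2⟩
  simp only at h1 h2
  omega

lemma cls_four_add (j : ZMod (4 * m)) : cls (j + 4) = cls j := by
  rw [cls_add, cls_four, add_zero]

lemma cls_sub_four (j : ZMod (4 * m)) : cls (j - 4) = cls j := by
  rw [cls_sub, cls_four, sub_zero]

lemma isW_two {j : ZMod (4 * m)} (h : od (cls j) = 0) :
    (IsW (j, 0, 0) ↔ ¬ IsW (j - 2, 0, 0)) ∧ (IsW (j, 0, 0) ↔ ¬ IsW (j + 2, 0, 0)) := by
  unfold IsW
  simp only [and_self, and_true]
  rw [cls_sub, cls_add, cls_two]
  generalize cls j = t at h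
  revert t
  decide

lemma NN_W {i : Tl m} (h : IsW i) : NN i = 8 := if_pos h
lemma NN_H {i : Tl m} (h : ¬ IsW i) : NN i = 6 := if_neg h

lemma mu_lt (i : Tl m) (k : ℕ) (hk : k < NN i) : (mu i k).2 < NN (mu i k).1 := by
  obtain ⟨j, a, b⟩ := i
  have h6 : ∀ i : Tl m, 6 ≤ NN i := NN_le
  have hk8 : k < 8 := by
    unfold NN at hk
    split_ifs at hk <;> omega
  interval_cases k
  · rcases b with _ | b
    · by_cases h : a + od (cls j) = 0
      · rw [mu0z _ _ h]; exact lt_of_lt_of_le (by norm_num) (h6 _)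
      · rw [mu0n _ _ h]; exact lt_of_lt_of_le (by norm_num) (h6 _)
    · rw [mu0s]; exact lt_of_lt_of_le (by norm_num) (h6 _)
  · rcases b with _ | b
    · rw [mu1z]; exact lt_of_lt_of_le (by norm_num) (h6 _)
    · rw [mu1s]; exact lt_of_lt_of_le (by norm_num) (h6 _)
  · rw [mu2]; exact lt_of_lt_of_le (by norm_num) (h6 _)
  · rw [mu3]; exact lt_of_lt_of_le (by norm_num) (h6 _)
  · rcases a with _ | a
    · rw [mu4z]; exact lt_of_lt_of_le (by norm_num) (h6 _)
    · rw [mu4s]; exact lt_of_lt_of_le (by norm_num) (h6 _)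
  · rcases a with _ | a
    · by_cases h : b + od (cls j) = 0
      · rw [mu5z _ _ h]; exact lt_of_lt_of_le (by norm_num) (h6 _)
      · rw [mu5n _ _ h]; exact lt_of_lt_of_le (by norm_num) (h6 _)
    · rw [mu5s]; exact lt_of_lt_of_le (by norm_num) (h6 _)
  · have hW : IsW (j, a, b) := by
      by_contra h
      rw [NN_H h] at hk
      omega
    rw [mu6, NN_W (show IsW (j + 4, 0, 0) from ⟨by rw [cls_four_add]; exact hW.1, rfl, rfl⟩)]
    norm_num
  · have hW : IsW (j, a, b) := by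
      by_contra h
      rw [NN_H h] at hk
      omega
    rw [mu7, NN_W (show IsW (j - 4, 0, 0) from ⟨by rw [cls_sub_four]; exact hW.1, rfl, rfl⟩)]
    norm_num

lemma VV_closed (B T : ZMod (4 * m) → ℕ → ℕ → ℂ) (i : Tl m) : VV B T i (NN i) = VV B T i 0 := by
  obtain ⟨j, a, b⟩ := i
  by_cases h : IsW (j, a, b)
  · rw [NN_W h, VV8W _ _ _ _ _ h, VV0W _ _ _ _ _ h]
  · rw [NN_H h, VV6 _ _ _ _ _ h, VV0 _ _ _ _ _ h]

lemma mu_start (B T : ZMod (4 * m) → ℕ → ℕ → ℂ) (i : Tl m) (k : ℕ) (hk : k < NN i) :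
    VV B T (mu i k).1 (mu i k).2 = VV B T i (k + 1) := by
  obtain ⟨j, a, b⟩ := i
  have hk8 : k < 8 := by
    unfold NN at hk
    split_ifs at hk <;> omega
  have hod := od_zero_or (cls j)
  have h1 := od_sub_one j
  have h2 := od_add_one j
  interval_cases k
  · rcases b with _ | b
    · rw [VV1z]
      by_cases h : a + od (cls j) = 0
      · rw [mu0z _ _ h, VV5z, od_sub_two]
        have h3 : od (cls j) = 0 := by omega
        have h4 : a = 0 := by omega
        rw [h3, h4, show j - 2 + 1 = j - 1 by ring]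
      · rw [mu0n _ _ h, VV4]
        rw [show a + od (cls j) - 1 + 1 = a + od (cls j) by omega]
    · rw [mu0s, VV3, VV1s]
  · rw [VV2]
    rcases b with _ | b
    · rw [mu1z, VV5z, od_sub_one, show j - 1 + 1 = j by ring,
        show a + od (cls j) + (1 - od (cls j)) = a + 1 by omega]
    · rw [mu1s, VV4]
  · rw [mu2, VV5s, VV3]
  · rw [mu3, VV0 _ _ _ _ _ (not_isW_a _ _ _ (by omega)), VV4]
  · rcases a with _ | a
    · rw [mu4z, VV5z]
      by_cases h : od (cls j) = 0
      · rw [VV0 _ _ _ _ _ (not_isW_of_od _ _ (by omega))]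
      · rw [VV0 _ _ _ _ _ (not_isW_a _ _ _ (by omega))]
    · rw [mu4s, VV1s, VV5s]
  · rcases a with _ | a
    · by_cases h : b + od (cls j) = 0
      · rw [mu5z _ _ h]
        have h3 : od (cls j) = 0 := by omega
        have h4 : b = 0 := by omega
        subst h4
        have h5 := (isW_two h3).2
        by_cases hW : IsW (j, 0, 0)
        · rw [VV6W _ _ _ _ _ hW, VV0 _ _ _ _ _ (h5.1 hW)]
        · have hW2 : IsW (j + 2, 0, 0) := by tauto
          rw [VV6 _ _ _ _ _ hW, VV0W _ _ _ _ _ hW2, show j + 2 - 2 = j by ring]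
      · rw [mu5n _ _ h, VV1z, od_add_one, show j + 1 - 1 = j by ring,
          show b + od (cls j) - 1 + (1 - od (cls j)) = b by omega]
        by_cases h3 : od (cls j) = 0
        · rw [VV6 _ _ _ _ _ (not_isW_a _ _ _ (by omega))]
        · rw [VV6 _ _ _ _ _ (not_isW_of_od _ _ h3)]
    · rw [mu5s, VV2, VV6 _ _ _ _ _ (not_isW_a _ _ _ (by omega))]
  · rw [mu6, VV7, VV7]
  · have hW : IsW (j, a, b) := by
      by_contra h
      rw [NN_H h] at hk
      omega
    rw [mu7, VV8W _ _ _ _ _ hW,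
      VV6W _ _ _ _ _ (show IsW (j - 4, 0, 0) from ⟨by rw [cls_sub_four]; exact hW.1, rfl, rfl⟩),
      show j - 4 + 2 = j - 2 by ring]

lemma mu_fin (B T : ZMod (4 * m) → ℕ → ℕ → ℂ) (i : Tl m) (k : ℕ) (hk : k < NN i) :
    VV B T (mu i k).1 ((mu i k).2 + 1) = VV B T i k := by
  obtain ⟨j, a, b⟩ := i
  have hk8 : k < 8 := by
    unfold NN at hk
    split_ifs at hk <;> omega
  have hod := od_zero_or (cls j)
  have h1 := od_sub_one j
  have h2 := od_add_one j
  interval_cases k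
  · rcases b with _ | b
    · by_cases h : a + od (cls j) = 0
      · rw [mu0z _ _ h]
        have h3 : od (cls j) = 0 := by omega
        have h4 : a = 0 := by omega
        subst h4
        have h5 := (isW_two h3).1
        show VV B T (j - 2, 0, 0) 6 = _
        by_cases hW : IsW (j, 0, 0)
        · rw [VV0W _ _ _ _ _ hW, VV6 _ _ _ _ _ (h5.1 hW)]
        · have hW2 : IsW (j - 2, 0, 0) := by tauto
          rw [VV0 _ _ _ _ _ hW, VV6W _ _ _ _ _ hW2, show j - 2 + 2 = j by ring]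
      · rw [mu0n _ _ h]
        show VV B T (j - 1, 0, a + od (cls j) - 1) 5 = _
        rw [VV5z, od_sub_one, show j - 1 + 1 = j by ring,
          show a + od (cls j) - 1 + (1 - od (cls j)) = a by omega]
        by_cases h3 : od (cls j) = 0
        · rw [VV0 _ _ _ _ _ (not_isW_a _ _ _ (by omega))]
        · rw [VV0 _ _ _ _ _ (not_isW_of_od _ _ h3)]
    · rw [mu0s]
      show VV B T (j, a, b) 4 = _
      rw [VV4, VV0 _ _ _ _ _ (not_isW_a _ _ _ (by omega))]
  · rcases b with _ | b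
    · rw [mu1z]
      show VV B T (j - 1, 0, a + od (cls j)) 6 = _
      rw [VV1z]
      by_cases h3 : od (cls j) = 0
      · rw [VV6 _ _ _ _ _ (not_isW_of_od _ _ (by omega))]
      · rw [VV6 _ _ _ _ _ (not_isW_a _ _ _ (by omega))]
    · rw [mu1s]
      show VV B T (j, a + 1, b) 5 = _
      rw [VV5s, VV1s]
  · rw [mu2]
    show VV B T (j, a + 1, b) 6 = _
    rw [VV2, VV6 _ _ _ _ _ (not_isW_a _ _ _ (by omega))]
  · rw [mu3]
    show VV B T (j, a, b + 1) 1 = _
    rw [VV1s, VV3]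
  · rcases a with _ | a
    · rw [mu4z]
      show VV B T (j + 1, b + od (cls j), 0) 1 = _
      rw [VV1z, VV4, od_add_one, show j + 1 - 1 = j by ring,
        show b + od (cls j) + (1 - od (cls j)) = b + 1 by omega]
    · rw [mu4s]
      show VV B T (j, a, b + 1) 2 = _
      rw [VV2, VV4]
  · rcases a with _ | a
    · by_cases h : b + od (cls j) = 0
      · rw [mu5z _ _ h]
        show VV B T (j + 2, 0, 0) 1 = _
        have h3 : od (cls j) = 0 := by omega
        have h4 : b = 0 := by omega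
        rw [VV1z, VV5z, od_add_two, h3, h4, show j + 2 - 1 = j + 1 by ring]
      · rw [mu5n _ _ h]
        show VV B T (j + 1, b + od (cls j) - 1, 0) 2 = _
        rw [VV2, VV5z, show b + od (cls j) - 1 + 1 = b + od (cls j) by omega]
    · rw [mu5s]
      show VV B T (j, a, b) 3 = _
      rw [VV3, VV5s]
  · have hW : IsW (j, a, b) := by
      by_contra h
      rw [NN_H h] at hk
      omega
    rw [mu6]
    show VV B T (j + 4, 0, 0) 8 = _
    rw [VV6W _ _ _ _ _ hW,
      VV8W _ _ _ _ _ (show IsW (j + 4, 0, 0) from ⟨by rw [cls_four_add]; exact hW.1, rfl, rfl⟩),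
      show j + 4 - 2 = j + 2 by ring]
  · rw [mu7]
    show VV B T (j - 4, 0, 0) 7 = _
    rw [VV7, VV7]

end Pool.Agent.EqTiling
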