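import Pool.Agent.EqTiling.Family

set_option autoImplicit false
set_option linter.unusedSimpArgs false
set_option linter.unusedSectionVars false

namespace Pool.Agent.EqTiling

open Set MeasureTheory Filter Topology

variable {m : ℕ} [NeZero m] {x : XX} {s : ℝ}

lemma ori_ee (j : ZMod (4 * m)) (a b c : ℂ) :
    ori (ee j * a) (ee j * b) (ee j * c) = ori a b c := by
  have h := normSq_ee j
  simp only [ori, Complex.sub_re, Complex.sub_im, Complex.mul_re, Complex.mul_im]
  linear_combination ((b.re - a.re) * (c.im - a.im) - (b.im - a.im) * (c.re - a.re)) * h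

lemma ori_toC (s : ℝ) (p q r : ℝ × ℝ) : ori (toC s p) (toC s q) (toC s r) = s * ori2 p q r := by
  simp only [ori, ori2, toC, Complex.sub_re, Complex.sub_im]
  ring

lemma lvW0 (x : XX) : lv x 0 0 0 0 = (x.2.1 * (uL x.2.2).1, x.2.1 * (uL x.2.2).2) := by
  show rotM x.2.2 (rotM x.2.2 (0, x.2.1)) = _
  unfold rotM uL
  ext
  · simp only; ring
  · simp only; ring

lemma lvW6 (x : XX) : lv x 0 0 0 6 = (x.2.1 * (uR x.2.2).1, x.2.1 * (uR x.2.2).2) := by
  show rotP x.2.2 (rotP x.2.2 (0, x.2.1)) = _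
  unfold rotP uR
  ext
  · simp only; ring
  · simp only; ring

lemma ori2_zero (p q : ℝ × ℝ) : ori2 p q (0, 0) = X2 p q := by
  unfold ori2 X2
  simp only
  ring

lemma ccw_H (h : Par m x s) (cl : Fin 4) (a b : ℕ) (i j k : ℕ) (hij : i < j) (hjk : j < k)
    (hk : k ≤ 6) (h06 : ¬ (i = 0 ∧ k = 6)) :
    0 < ori2 (lv x cl a b i) (lv x cl a b j) (lv x cl a b k) := by
  by_cases h2 : 2 ≤ a + b
  · rw [lv_exact _ _ _ _ h2 _ (by omega), lv_exact _ _ _ _ h2 _ (by omega),
      lv_exact _ _ _ _ h2 _ (by omega), ori2_add]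
    have := h.good.hc
    exact st_ccw _ (by linarith) i j k hij hjk hk h06
  · have := h.good.ccw cl ⟨a, by omega⟩ ⟨b, by omega⟩ ⟨i, by omega⟩ ⟨j, by omega⟩ ⟨k, by omega⟩
      hij hjk (by
        rintro ⟨h1, h2⟩
        apply h06
        constructor
        · exact congrArg Fin.val h1
        · exact congrArg Fin.val h2)
    exact this

lemma ccw_W (h : Par m x s) (i j k : ℕ) (hij : i < j) (hjk : j < k) (hk : k < 8) :
    0 < ori2 (lv x 0 0 0 i) (lv x 0 0 0 j) (lv x 0 0 0 k) := by
  have hR := h.hR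
  have hc := h.good.hc
  have hc0 : 0 < x.2.2 := by linarith
  have h2c : 0 < 2 * x.2.2 ^ 2 - 1 := by nlinarith
  rcases Nat.lt_or_ge k 7 with hk7 | hk7
  · by_cases h06 : i = 0 ∧ k = 6
    · obtain ⟨rfl, rfl⟩ := h06
      have h1 := h.good.wY ⟨j, by omega⟩ hij hjk
      have h2 : ori2 (lv x 0 0 0 0) (lv x 0 0 0 j) (lv x 0 0 0 6) =
          4 * x.2.2 * x.2.1 * ((lv x 0 0 0 j).2 - (lv x 0 0 0 0).2) := by
        rw [lvW6, lvW0]
        unfold ori2 uR uL
        simp only
        ring
      rw [h2]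
      exact mul_pos (by positivity) h1
    · exact ccw_H h 0 0 0 i j k hij hjk (by omega) h06
  · obtain rfl : k = 7 := by omega
    have h7 : lv x 0 0 0 7 = (0, 0) := rfl
    rw [h7, ori2_zero]
    rcases Nat.eq_zero_or_pos i with rfl | hi
    · rcases Nat.lt_or_ge j 6 with hj | hj
      · have h1 := h.good.wL ⟨j, by omega⟩ hij hj
        have h2 : X2 (lv x 0 0 0 0) (lv x 0 0 0 j) = x.2.1 * X2 (uL x.2.2) (lv x 0 0 0 j) := by
          rw [lvW0]
          unfold X2
          simp only
          ring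
        rw [h2]
        exact mul_pos hR h1
      · obtain rfl : j = 6 := by omega
        have h2 : X2 (lv x 0 0 0 0) (lv x 0 0 0 6) = 4 * x.2.2 * x.2.1 ^ 2 * (2 * x.2.2 ^ 2 - 1) := by
          rw [lvW0, lvW6]
          unfold X2 uL uR
          simp only
          ring
        rw [h2]
        positivity
    · rcases Nat.lt_or_ge j 6 with hj | hj
      · exact h.good.wX ⟨i, by omega⟩ ⟨j, by omega⟩ hi hij hj
      · obtain rfl : j = 6 := by omega
        have h1 := h.good.wR ⟨i, by omega⟩ hi hij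
        have h2 : X2 (lv x 0 0 0 i) (lv x 0 0 0 6) = x.2.1 * X2 (lv x 0 0 0 i) (uR x.2.2) := by
          rw [lvW6]
          unfold X2
          simp only
          ring
        rw [h2]
        exact mul_pos hR h1

lemma ccw_VX (h : Par m x s) (i : Tl m) : CCW (NN i) (VX m x s i) := by
  intro p q r hpq hqr hr
  unfold VX
  rw [ori_ee, ori_toC]
  apply mul_pos h.s_pos
  by_cases hW : IsW i
  · rw [NN_W hW] at hr
    obtain ⟨h1, h2, h3⟩ := hW
    rw [h1, h2, h3]
    exact ccw_W h p q r hpq hqr hr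
  · rw [NN_H hW] at hr
    exact ccw_H h _ _ _ p q r hpq hqr hr.le (by omega)

theorem matched (h : Par m x s) : Matched (NN (m := m)) (VX m x s) mu where
  three i := le_trans (by norm_num) (NN_le i)
  ccw i := ccw_VX h i
  closed i := by rw [VX_eq h, VX_eq h]; exact VV_closed _ _ i
  lt i k hk := mu_lt i k hk
  start i k hk := by rw [VX_eq h, VX_eq h]; exact mu_start _ _ i k hk
  fin i k hk := by rw [VX_eq h, VX_eq h]; exact mu_fin _ _ i k hk
  invol i k hk := mu_invol i k hk

end Pool.Agent.EqTiling
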