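import Pool.Agent.EqTiling.Convex

set_option autoImplicit false
set_option linter.unusedSimpArgs false
set_option linter.unusedSectionVars false

namespace Pool.Agent.EqTiling

open Set MeasureTheory Filter Topology

variable {m : ℕ} [NeZero m] {x : XX} {s : ℝ}

/-- projection on the axis of a sector -/
noncomputable def proj (j : ZMod (4 * m)) (z : ℂ) : ℝ := (ee j).re * z.re + (ee j).im * z.im

lemma proj_toC (j : ZMod (4 * m)) (p : ℝ × ℝ) : proj j (ee j * toC s p) = p.2 := by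
  have h := normSq_ee j
  unfold proj toC
  simp only [Complex.mul_re, Complex.mul_im]
  linear_combination p.2 * h

lemma proj_le (j : ZMod (4 * m)) (z : ℂ) : proj j z ≤ ‖z‖ := by
  have h1 : proj j z = ((starRingEnd ℂ) (ee j) * z).re := by
    simp [proj, Complex.mul_re, Complex.conj_re, Complex.conj_im]
  rw [h1]
  refine (Complex.re_le_norm _).trans ?_
  rw [norm_mul, Complex.norm_conj, norm_ee, one_mul]

lemma convex_proj_gt (j : ZMod (4 * m)) (t : ℝ) : Convex ℝ {z | t < proj j z} := by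
  intro p hp q hq a b ha hb hab
  simp only [mem_ofPred_eq, proj] at *
  simp only [Complex.add_re, Complex.add_im, Complex.real_smul, Complex.mul_re, Complex.mul_im,
    Complex.ofReal_re, Complex.ofReal_im, zero_mul, sub_zero, add_zero]
  rcases ha.eq_or_lt with h0 | h0
  · have hb1 : b = 1 := by linarith
    rw [← h0, hb1]
    linarith
  · have h1 := mul_pos h0 (sub_pos.2 hp)
    have h2 := mul_nonneg hb (sub_pos.2 hq).le
    have h3 : t = a * t + b * t := by rw [← add_mul, hab, one_mul]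
    rw [h3]
    linarith

lemma body_gt {i : Tl m} {t : ℝ} (hv : ∀ k < NN i, t < (lv x (cls i.1) i.2.1 i.2.2 k).2) {z : ℂ}
    (hz : z ∈ body (NN (m := m)) (VX m x s) i) : t < ‖z‖ := by
  have hsub : body (NN (m := m)) (VX m x s) i ⊆ {z | t < proj i.1 z} := by
    apply convexHull_min _ (convex_proj_gt _ _)
    rintro _ ⟨k, hk, rfl⟩
    show t < proj i.1 (ee i.1 * toC s _)
    rw [proj_toC]
    exact hv k hk
  exact (hsub hz).trans_le (proj_le _ _)

lemma lv_big (h : Par m x s) (cl : Fin 4) (a b k : ℕ) (hab : 2 ≤ a + b) (hk : k < 6) :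
    ((a + b : ℕ) : ℝ) - 1 < (lv x cl a b k).2 := by
  rw [lv_exact _ _ _ _ hab _ (by omega)]
  have hc := h.good.hc
  have hst : 0 ≤ (st x.2.2 k).2 := by
    interval_cases k <;> simp only [st] <;> linarith
  have h1 : (0 : ℝ) ≤ a := Nat.cast_nonneg a
  have h2 : (0 : ℝ) ≤ b := Nat.cast_nonneg b
  have h3 : (0 : ℝ) ≤ od cl := Nat.cast_nonneg _
  have h4 : 0 ≤ ((a : ℝ) + b) * x.2.2 := mul_nonneg (by linarith) (by linarith)
  simp only [Prod.snd_add, bf]
  push_cast
  nlinarith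

lemma locallyFinite_VX (h : Par m x s) : LocallyFinite (body (NN (m := m)) (VX m x s)) := by
  intro z
  refine ⟨Metric.ball 0 (‖z‖ + 1), Metric.isOpen_ball.mem_nhds (by simp), ?_⟩
  obtain ⟨M, hM⟩ := exists_nat_gt (‖z‖ + 2)
  apply Set.Finite.subset (s := (Set.univ : Set (ZMod (4 * m))) ×ˢ (Iic M ×ˢ Iic M))
  · exact Set.finite_univ.prod ((finite_Iic M).prod (finite_Iic M))
  rintro ⟨j, a, b⟩ ⟨y, hy, hyb⟩
  simp only [Set.mem_prod, mem_univ, true_and, mem_Iic]
  have hyn : ‖y‖ < ‖z‖ + 1 := by simpa using hyb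
  have hM2 : 2 ≤ M := by
    have h5 : (2 : ℝ) < M := by linarith [norm_nonneg z]
    exact_mod_cast h5.le
  by_contra hcon
  have hab : M < a + b := by omega
  have hab2 : 2 ≤ a + b := by omega
  have hNN : NN (j, a, b) = 6 := NN_H (not_isW_a _ _ _ (by omega))
  have h1 := body_gt (t := ((a + b : ℕ) : ℝ) - 1) (by
    intro k hk
    rw [hNN] at hk
    exact lv_big h _ a b k hab2 hk) hy
  have h2 : (M : ℝ) < ((a + b : ℕ) : ℝ) := by exact_mod_cast hab
  linarith

lemma ori2_pt (p q : ℝ × ℝ) (δ : ℝ) : ori2 p q (0, δ) = X2 p q + δ * (p.1 - q.1) := by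
  unfold ori2 X2
  simp only
  ring

/-- the base point -/
noncomputable def y0 (x : XX) : ℂ := ((x.2.1 / 2 : ℝ) : ℂ)

lemma y0_eq (s : ℝ) : y0 x = ee (0 : ZMod (4 * m)) * toC s (0, x.2.1 / 2) := by
  have h0 : ee (0 : ZMod (4 * m)) = 1 := AddChar.map_zero_eq_one _
  rw [h0, one_mul]
  unfold y0 toC
  apply Complex.ext <;> simp

lemma inn_y0 (h : Par m x s) : Inn (NN (m := m)) (VX m x s) (0, 0, 0) (y0 x) := by
  intro k hk
  have hW : IsW ((0, 0, 0) : Tl m) := ⟨cls_zero, rfl, rfl⟩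
  rw [NN_W hW] at hk
  rw [y0_eq (m := m) s]
  unfold VX
  rw [ori_ee, ori_toC]
  apply mul_pos h.s_pos
  rw [cls_zero]
  show 0 < ori2 (lv x 0 0 0 k) (lv x 0 0 0 (k + 1)) _
  rw [ori2_pt]
  have hR := h.hR
  have hR4 := h.good.hR
  have hc := h.good.hc
  have hc0 : 0 < x.2.2 := by linarith
  rcases Nat.lt_or_ge k 1 with h1 | h1
  · obtain rfl : k = 0 := by omega
    have e1 := h.good.wL 1 (by decide) (by decide)
    have e2 := h.good.w0
    have h2 : X2 (lv x 0 0 0 0) (lv x 0 0 0 1) = x.2.1 * X2 (uL x.2.2) (lv x 0 0 0 1) := by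
      rw [lvW0]
      unfold X2
      simp only
      ring
    rw [zero_add, h2]
    have e3 : 0 < x.2.1 * X2 (uL x.2.2) (lv x 0 0 0 1) := mul_pos hR e1
    have e4 : 0 < x.2.1 / 2 * ((lv x 0 0 0 0).1 - (lv x 0 0 0 1).1) := mul_pos (by linarith) e2
    linarith
  · rcases Nat.lt_or_ge k 5 with h5 | h5
    · have e1 := h.good.wX ⟨k, by omega⟩ ⟨k + 1, by omega⟩ h1 (Nat.lt_succ_self k) (by
        show k + 1 < 6; omega)
      have e2 := h.good.wi ⟨k, by omega⟩ h1 h5
      simp only at e1 e2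
      set X := X2 (lv x 0 0 0 k) (lv x 0 0 0 (k + 1))
      set D := (lv x 0 0 0 k).1 - (lv x 0 0 0 (k + 1)).1
      have e3 : X + x.2.1 / 2 * D = (1 - 2 * x.2.1) * X + 2 * x.2.1 * (X + 1 / 4 * D) := by ring
      rw [e3]
      have e4 : 0 < (1 - 2 * x.2.1) * X := mul_pos (by linarith) e1
      have e5 : 0 < 2 * x.2.1 * (X + 1 / 4 * D) := mul_pos (by linarith) e2
      linarith
    · rcases Nat.lt_or_ge k 6 with h6 | h6
      · obtain rfl : k = 5 := by omega
        have e1 := h.good.wR 5 (by decide) (by decide)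
        have e2 := h.good.w5
        have h2 : X2 (lv x 0 0 0 5) (lv x 0 0 0 6) = x.2.1 * X2 (lv x 0 0 0 5) (uR x.2.2) := by
          rw [lvW6]
          unfold X2
          simp only
          ring
        rw [show 5 + 1 = 6 from rfl, h2]
        have e3 : 0 < x.2.1 * X2 (lv x 0 0 0 5) (uR x.2.2) := mul_pos hR e1
        have e4 : 0 < x.2.1 / 2 * ((lv x 0 0 0 5).1 - (lv x 0 0 0 6).1) :=
          mul_pos (by linarith) e2
        linarith
      · have h7 : lv x 0 0 0 7 = (0, 0) := rfl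
        have h8 : lv x 0 0 0 8 = lv x 0 0 0 0 := rfl
        rcases Nat.lt_or_ge k 7 with h7' | h7'
        · obtain rfl : k = 6 := by omega
          rw [show 6 + 1 = 7 from rfl, h7, lvW6]
          unfold X2 uR
          simp only
          have : 0 < x.2.1 / 2 * (x.2.1 * (2 * x.2.2)) := by positivity
          nlinarith
        · obtain rfl : k = 7 := by omega
          rw [show 7 + 1 = 8 from rfl, h7, h8, lvW0]
          unfold X2 uL
          simp only
          have : 0 < x.2.1 / 2 * (x.2.1 * (2 * x.2.2)) := by positivity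
          nlinarith


lemma cls_eq_zero {j : ZMod (4 * m)} (h : cls j = 0) : ∃ k : ℕ, k < m ∧ j = ((4 * k : ℕ) : ZMod (4 * m)) := by
  have h1 : j = ((j.val : ℕ) : ZMod (4 * m)) := (ZMod.natCast_zmod_val j).symm
  rw [h1, cls_nat] at h
  have h2 : 4 ∣ j.val := (ZMod.natCast_eq_zero_iff _ _).1 h
  obtain ⟨k, hk⟩ := h2
  refine ⟨k, ?_, ?_⟩
  · have := ZMod.val_lt j
    omega
  · rw [← hk]; exact h1

lemma not_clo_W (h : Par m x s) (j : ZMod (4 * m)) (hj : cls j = 0) (hj0 : j ≠ 0) :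
    ¬ Clo (NN (m := m)) (VX m x s) (j, 0, 0) (y0 x) := by
  intro hC
  have hW : IsW ((j, 0, 0) : Tl m) := ⟨hj, rfl, rfl⟩
  have hR := h.hR
  have h6 := hC 6 (by rw [NN_W hW]; norm_num)
  have h7 := hC 7 (by rw [NN_W hW]; norm_num)
  have e0 : toC s (bet x 2 0 0) = ((x.2.1 : ℝ) : ℂ) := by
    show toC s (0, x.2.1) = _
    unfold toC
    apply Complex.ext <;> simp
  have e6 : VX m x s (j, 0, 0) 6 = ee (j + 2) * ((x.2.1 : ℝ) : ℂ) := by
    rw [VX_eq h, VV6W _ _ _ _ _ hW]
    unfold BB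
    have h4 : cls (j + 2) = 2 := by rw [cls_add, hj, cls_two]; rfl
    rw [h4, e0]
  have e7 : VX m x s (j, 0, 0) 7 = 0 := by rw [VX_eq h]; rfl
  have e8 : VX m x s (j, 0, 0) 8 = ee (j - 2) * ((x.2.1 : ℝ) : ℂ) := by
    rw [VX_eq h, VV8W _ _ _ _ _ hW]
    unfold BB
    have h4 : cls (j - 2) = 2 := by rw [cls_sub, hj, cls_two]; rfl
    rw [h4, e0]
  rw [show 6 + 1 = 7 from rfl, e6, e7] at h6
  rw [show 7 + 1 = 8 from rfl, e7, e8] at h7
  unfold ori y0 at h6 h7
  simp only [Complex.sub_re, Complex.sub_im, Complex.mul_re, Complex.mul_im, Complex.ofReal_re,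
    Complex.ofReal_im, Complex.zero_re, Complex.zero_im] at h6 h7
  obtain ⟨k, hk, rfl⟩ := cls_eq_zero hj
  have hk0 : 0 < k := by
    rcases Nat.eq_zero_or_pos k with rfl | h0
    · exact absurd (by simp) hj0
    · exact h0
  have a1 : (ee (((4 * k : ℕ) : ZMod (4 * m)) + 2)).im =
      Real.sin (((2 * k + 1 : ℕ) : ℝ) * (Real.pi / m)) := by
    have : ((4 * k : ℕ) : ZMod (4 * m)) + 2 = (((4 * k + 2 : ℕ) : ℤ) : ZMod (4 * m)) := by
      push_cast; ring
    rw [this, ee_int]
    simp only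
    congr 1
    push_cast
    have hm : (m : ℝ) ≠ 0 := Nat.cast_ne_zero.mpr (NeZero.ne m)
    field_simp
    ring
  have a2 : (ee (((4 * k : ℕ) : ZMod (4 * m)) - 2)).im =
      Real.sin (((2 * k - 1 : ℕ) : ℝ) * (Real.pi / m)) := by
    have : ((4 * k : ℕ) : ZMod (4 * m)) - 2 = (((4 * k : ℤ) - 2 : ℤ) : ZMod (4 * m)) := by
      push_cast; ring
    rw [this, ee_int]
    simp only
    congr 1
    have h2k : ((2 * k - 1 : ℕ) : ℝ) = 2 * (k : ℝ) - 1 := by
      rw [Nat.cast_sub (by omega)]; push_cast; ring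
    rw [h2k]
    push_cast
    have hm : (m : ℝ) ≠ 0 := Nat.cast_ne_zero.mpr (NeZero.ne m)
    field_simp
    ring
  have hm0 : (0 : ℝ) < m := by exact_mod_cast Nat.pos_of_ne_zero (NeZero.ne m)
  have b1 : 0 ≤ Real.sin (((2 * k + 1 : ℕ) : ℝ) * (Real.pi / m)) := by
    rw [← a1]
    have : 0 ≤ x.2.1 ^ 2 / 2 * (ee (((4 * k : ℕ) : ZMod (4 * m)) + 2)).im := by
      ring_nf at h6 ⊢
      linarith
    exact nonneg_of_mul_nonneg_right this (by positivity)
  have b2 : Real.sin (((2 * k - 1 : ℕ) : ℝ) * (Real.pi / m)) ≤ 0 := by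
    rw [← a2]
    have : 0 ≤ x.2.1 ^ 2 / 2 * (-(ee (((4 * k : ℕ) : ZMod (4 * m)) - 2)).im) := by
      ring_nf at h7 ⊢
      linarith
    have := nonneg_of_mul_nonneg_right this (by positivity)
    linarith
  have c2 : m ≤ 2 * k - 1 := by
    by_contra hlt
    push Not at hlt
    have : 0 < Real.sin (((2 * k - 1 : ℕ) : ℝ) * (Real.pi / m)) := by
      apply Real.sin_pos_of_pos_of_lt_pi
      · have : (0 : ℝ) < ((2 * k - 1 : ℕ) : ℝ) := by exact_mod_cast (by omega : 0 < 2 * k - 1)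
        positivity
      · have h3 : ((2 * k - 1 : ℕ) : ℝ) < m := by exact_mod_cast hlt
        rw [← mul_div_assoc, div_lt_iff₀ hm0, mul_comm]
        exact mul_lt_mul_of_pos_left h3 Real.pi_pos
    linarith
  have c1 : Real.sin (((2 * k + 1 : ℕ) : ℝ) * (Real.pi / m)) < 0 := by
    have h3 : (m : ℝ) < ((2 * k + 1 : ℕ) : ℝ) := by exact_mod_cast (by omega : m < 2 * k + 1)
    have h4 : ((2 * k + 1 : ℕ) : ℝ) < 2 * m := by exact_mod_cast (by omega : 2 * k + 1 < 2 * m)
    have h5 : Real.sin (((2 * k + 1 : ℕ) : ℝ) * (Real.pi / m)) =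
        - Real.sin (((2 * k + 1 : ℕ) : ℝ) * (Real.pi / m) - Real.pi) := by
      rw [Real.sin_sub_pi]; ring
    rw [h5]
    have : 0 < Real.sin (((2 * k + 1 : ℕ) : ℝ) * (Real.pi / m) - Real.pi) := by
      apply Real.sin_pos_of_pos_of_lt_pi
      · rw [sub_pos, ← mul_div_assoc, lt_div_iff₀ hm0, mul_comm]
        exact mul_lt_mul_of_pos_right h3 Real.pi_pos
      · rw [sub_lt_iff_lt_add, ← mul_div_assoc, div_lt_iff₀ hm0]
        nlinarith [Real.pi_pos]
    linarith
  linarith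

lemma not_clo (h : Par m x s) (i : Tl m) (hi : i ≠ (0, 0, 0)) :
    ¬ Clo (NN (m := m)) (VX m x s) i (y0 x) := by
  obtain ⟨j, a, b⟩ := i
  by_cases hW : IsW (j, a, b)
  · obtain ⟨h1, h2, h3⟩ := hW
    simp only at h1 h2 h3
    subst h2 h3
    exact not_clo_W h j h1 (fun hj => hi (by rw [hj]))
  · intro hC
    rw [← mem_body_iff (matched h)] at hC
    have hR := h.hR
    have hR4 := h.good.hR
    have h1 := body_gt (t := x.2.1 / 2) (by
      intro k hk
      rw [NN_H hW] at hk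
      show x.2.1 / 2 < (lv x (cls j) a b k).2
      by_cases hab : 2 ≤ a + b
      · have h2 := lv_big h (cls j) a b k hab hk
        have h3 : (2 : ℝ) ≤ ((a + b : ℕ) : ℝ) := by exact_mod_cast hab
        linarith
      · by_cases hsp : k = 0 ∧ (cls j = 0 ∨ cls j = 2) ∧ a = 0 ∧ b = 0
        · obtain ⟨rfl, h2, rfl, rfl⟩ := hsp
          have h3 : cls j = 2 := by
            rcases h2 with h2 | h2
            · exact absurd ⟨h2, rfl, rfl⟩ hW
            · exact h2
          rw [h3]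
          show x.2.1 / 2 < x.2.1
          linarith
        · have h2 := h.good.posY (cls j) ⟨a, by omega⟩ ⟨b, by omega⟩ ⟨k, hk⟩ (by
            rintro ⟨h4, h5, h6, h7⟩
            apply hsp
            exact ⟨congrArg Fin.val h4, h5, congrArg Fin.val h6, congrArg Fin.val h7⟩)
          simp only at h2
          linarith) hC
    have h2 : ‖y0 x‖ = x.2.1 / 2 := by
      unfold y0
      rw [Complex.norm_real, Real.norm_eq_abs, abs_of_pos (by linarith)]
    linarith

theorem tiles (h : Par m x s) :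
    (⋃ i, body (NN (m := m)) (VX m x s) i) = univ ∧
      ∀ i j, i ≠ j → Disjoint (interior (body (NN (m := m)) (VX m x s) i))
        (interior (body (NN (m := m)) (VX m x s) j)) := by
  have hM := matched h
  apply tiling_of_matched hM (locallyFinite_VX h) (x0 := y0 x) _ (inn_y0 h) (not_clo h)
  intro hv
  obtain ⟨i, hi⟩ := mem_iUnion.1 hv
  obtain ⟨k, hk, hke⟩ := hi
  by_cases h0 : i = (0, 0, 0)
  · subst h0
    have := inn_y0 h k hk
    rw [← hke, ori_self_left] at this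
    exact lt_irrefl _ this
  · apply not_clo h i h0
    rw [← mem_body_iff hM, ← hke]
    exact subset_convexHull ℝ _ ⟨k, hk, rfl⟩

end Pool.Agent.EqTiling
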