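import Mathlib

set_option autoImplicit false

namespace Pool.Agent.EqTiling

open Filter Topology

/-- the unknown vector -/
abbrev E13 := Fin 13 → ℝ

/-- unknowns, `R`, and `c = cos φ` -/
abbrev XX := E13 × ℝ × ℝ

/-- scaled distance -/
noncomputable def L (c : ℝ) (p q : ℝ × ℝ) : ℝ :=
  Real.sqrt ((1 - c ^ 2) * (q.1 - p.1) ^ 2 + (q.2 - p.2) ^ 2)

/-- scaled cross product -/
def X2 (p q : ℝ × ℝ) : ℝ := p.2 * q.1 - p.1 * q.2

/-- scaled orientation -/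
def ori2 (p q r : ℝ × ℝ) : ℝ := (q.2 - p.2) * (r.1 - p.1) - (q.1 - p.1) * (r.2 - p.2)

/-- scaled rotation by `φ` -/
def rotP (c : ℝ) (p : ℝ × ℝ) : ℝ × ℝ := (c * p.1 + p.2, c * p.2 - (1 - c ^ 2) * p.1)

/-- scaled rotation by `-φ` -/
def rotM (c : ℝ) (p : ℝ × ℝ) : ℝ × ℝ := (c * p.1 - p.2, c * p.2 + (1 - c ^ 2) * p.1)

/-- mirror -/
def mir (p : ℝ × ℝ) : ℝ × ℝ := (-p.1, p.2)

/-- parity of a class -/
def od : Fin 4 → ℕ
  | 0 => 0
  | 1 => 1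
  | 2 => 0
  | 3 => 1

/-- bottom vertices of the exact tiles -/
noncomputable def bf (c : ℝ) (cl : Fin 4) (a b : ℕ) : ℝ × ℝ :=
  ((b : ℝ) - a, ((a : ℝ) + b) * (1 + c) + od cl)

/-- bottom vertices, in scaled local coordinates -/
noncomputable def bet (x : XX) : Fin 4 → ℕ → ℕ → ℝ × ℝ
  | 0, 0, 0 => (0, 0)
  | 0, 0, 1 => (x.1 2, x.1 3)
  | 0, 1, 0 => (-x.1 2, x.1 3)
  | 1, 0, 0 => (x.1 5, x.1 6)
  | 1, 0, 1 => (x.1 7, x.1 8)
  | 1, 1, 0 => (x.1 9, x.1 10)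
  | 2, 0, 0 => (0, x.2.1)
  | 2, 0, 1 => (1, x.1 4)
  | 2, 1, 0 => (-1, x.1 4)
  | 3, 0, 0 => (-x.1 5, x.1 6)
  | 3, 1, 0 => (-x.1 7, x.1 8)
  | 3, 0, 1 => (-x.1 9, x.1 10)
  | cl, a, b => bf x.2.2 cl a b

/-- top vertices, in scaled local coordinates -/
noncomputable def tau (x : XX) : Fin 4 → ℕ → ℕ → ℝ × ℝ
  | 0, 0, 0 => (0, x.1 0)
  | 1, 0, 0 => (x.1 11, x.1 12)
  | 2, 0, 0 => (0, x.1 1)
  | 3, 0, 0 => (-x.1 11, x.1 12)
  | cl, a, b => ((bf x.2.2 cl a b).1, (bf x.2.2 cl a b).2 + (1 + 2 * x.2.2))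

/-- vertex 0 -/
noncomputable def lv0 (x : XX) : Fin 4 → ℕ → ℕ → ℝ × ℝ
  | 0, 0, 0 => rotM x.2.2 (rotM x.2.2 (bet x 2 0 0))
  | cl, a, b => bet x cl a b

/-- vertex 1 -/
noncomputable def lv1 (x : XX) : Fin 4 → ℕ → ℕ → ℝ × ℝ
  | cl, a, 0 => rotM x.2.2 (bet x (cl - 1) 0 (a + od cl))
  | cl, a, b + 1 => tau x cl a b

/-- vertex 5 -/
noncomputable def lv5 (x : XX) : Fin 4 → ℕ → ℕ → ℝ × ℝ
  | cl, 0, b => rotP x.2.2 (bet x (cl + 1) (b + od cl) 0)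
  | cl, a + 1, b => tau x cl a b

/-- vertex 6 -/
noncomputable def lv6 (x : XX) : Fin 4 → ℕ → ℕ → ℝ × ℝ
  | 0, 0, 0 => rotP x.2.2 (rotP x.2.2 (bet x 2 0 0))
  | cl, a, b => bet x cl a b

/-- vertices in scaled local coordinates -/
noncomputable def lv (x : XX) (cl : Fin 4) (a b : ℕ) : ℕ → ℝ × ℝ
  | 0 => lv0 x cl a b
  | 1 => lv1 x cl a b
  | 2 => bet x cl (a + 1) b
  | 3 => tau x cl a b
  | 4 => bet x cl a (b + 1)
  | 5 => lv5 x cl a b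
  | 6 => lv6 x cl a b
  | 7 => (0, 0)
  | _ => lv0 x cl a b

/-- length of the path of the vertices `0..6` -/
noncomputable def per (x : XX) (cl : Fin 4) (a b : ℕ) : ℝ :=
  ∑ k ∈ Finset.range 6, L x.2.2 (lv x cl a b k) (lv x cl a b (k + 1))

/-- scaled area swept by the path of the vertices `0..6` -/
noncomputable def ar (x : XX) (cl : Fin 4) (a b : ℕ) : ℝ :=
  ∑ k ∈ Finset.range 6, X2 (lv x cl a b k) (lv x cl a b (k + 1))

/-- the equations -/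
noncomputable def GG (x : XX) : E13 :=
  ![per x 0 0 0 + 2 * x.2.1 - 6,
    per x 2 0 0 - 6,
    per x 1 0 0 - 6,
    per x 0 0 1 - 6,
    per x 2 1 0 - 6,
    per x 1 1 0 - 6,
    per x 1 0 1 - 6,
    ar x 0 0 1 - (4 + 4 * x.2.2),
    ar x 1 1 0 - (4 + 4 * x.2.2),
    ar x 1 0 1 - (4 + 4 * x.2.2),
    ar x 2 1 0 - (4 + 4 * x.2.2),
    ar x 1 0 0 - (4 + 4 * x.2.2),
    ar x 0 0 0 - (4 + 4 * x.2.2)]

/-- base point -/
noncomputable def z0 : E13 := ![3, 3, 1, 2, 2, 0, 1, 1, 3, -1, 3, 0, 4]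

noncomputable def x0 : XX := (z0, 0, 1)

lemma bet_gen (x : XX) (cl : Fin 4) (a b : ℕ) (h : 2 ≤ a + b) :
    bet x cl a b = bf x.2.2 cl a b := by
  unfold bet
  split <;> first | rfl | (exfalso; omega)

lemma tau_gen (x : XX) (cl : Fin 4) (a b : ℕ) (h : 1 ≤ a + b) :
    tau x cl a b = ((bf x.2.2 cl a b).1, (bf x.2.2 cl a b).2 + (1 + 2 * x.2.2)) := by
  unfold tau
  split <;> first | rfl | (exfalso; omega)

lemma bet_x0 (cl : Fin 4) (a b : ℕ) : bet x0 cl a b = bf 1 cl a b := by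
  unfold bet
  split <;> simp [x0, z0, bf, od] <;> norm_num

lemma tau_x0 (cl : Fin 4) (a b : ℕ) :
    tau x0 cl a b = ((bf 1 cl a b).1, (bf 1 cl a b).2 + 3) := by
  unfold tau
  split <;> simp [x0, z0, bf, od] <;> norm_num

/-- vertices of the standard hexagon, in scaled coordinates -/
noncomputable def st (c : ℝ) : ℕ → ℝ × ℝ
  | 0 => (0, 0)
  | 1 => (-1, c)
  | 2 => (-1, 1 + c)
  | 3 => (0, 1 + 2 * c)
  | 4 => (1, 1 + c)
  | 5 => (1, c)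
  | _ => (0, 0)

lemma od_cases (cl : Fin 4) : od cl = 0 ∧ od (cl - 1) = 1 ∧ od (cl + 1) = 1 ∨
    od cl = 1 ∧ od (cl - 1) = 0 ∧ od (cl + 1) = 0 := by
  revert cl; decide

lemma rotM_bf (c : ℝ) (cl : Fin 4) (a : ℕ) :
    rotM c (bf c (cl - 1) 0 (a + od cl)) = bf c cl a 0 + (-1, c) := by
  rcases od_cases cl with ⟨h1, h2, _⟩ | ⟨h1, h2, _⟩ <;>
  · unfold rotM bf
    rw [h1, h2]
    ext
    · push_cast; simp; ring
    · push_cast; simp; ring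

lemma rotP_bf (c : ℝ) (cl : Fin 4) (b : ℕ) :
    rotP c (bf c (cl + 1) (b + od cl) 0) = bf c cl 0 b + (1, c) := by
  rcases od_cases cl with ⟨h1, _, h2⟩ | ⟨h1, _, h2⟩ <;>
  · unfold rotP bf
    rw [h1, h2]
    ext
    · push_cast; simp; ring
    · push_cast; simp; ring

lemma bf_a (c : ℝ) (cl : Fin 4) (a b : ℕ) : bf c cl (a + 1) b = bf c cl a b + (-1, 1 + c) := by
  unfold bf
  ext
  · push_cast; simp; ring
  · push_cast; simp; ring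

lemma bf_b (c : ℝ) (cl : Fin 4) (a b : ℕ) : bf c cl a (b + 1) = bf c cl a b + (1, 1 + c) := by
  unfold bf
  ext
  · push_cast; simp; ring
  · push_cast; simp; ring

lemma lv0_gen (x : XX) (cl : Fin 4) (a b : ℕ) (h : ¬ (cl = 0 ∧ a = 0 ∧ b = 0)) :
    lv0 x cl a b = bet x cl a b := by
  unfold lv0
  split
  · exact absurd ⟨rfl, rfl, rfl⟩ h
  · rfl

lemma lv6_gen (x : XX) (cl : Fin 4) (a b : ℕ) (h : ¬ (cl = 0 ∧ a = 0 ∧ b = 0)) :
    lv6 x cl a b = bet x cl a b := by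
  unfold lv6
  split
  · exact absurd ⟨rfl, rfl, rfl⟩ h
  · rfl

lemma lv_exact (x : XX) (cl : Fin 4) (a b : ℕ) (h : 2 ≤ a + b) (k : ℕ) (hk : k ≤ 6) :
    lv x cl a b k = bf x.2.2 cl a b + st x.2.2 k := by
  have hW : ¬ (cl = 0 ∧ a = 0 ∧ b = 0) := by omega
  interval_cases k
  · rw [lv, lv0_gen _ _ _ _ hW, bet_gen _ _ _ _ h]; simp [st]
  · rw [lv]
    rcases b with _ | b
    · rw [lv1, bet_gen _ _ _ _ (by omega), rotM_bf]; simp [st]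
    · rw [lv1, tau_gen _ _ _ _ (by omega), bf_b]
      ext <;> simp [st] <;> ring
  · rw [lv, bet_gen _ _ _ _ (by omega), bf_a]; simp [st]
  · rw [lv, tau_gen _ _ _ _ (by omega)]; ext <;> simp [st]
  · rw [lv, bet_gen _ _ _ _ (by omega), bf_b]; simp [st]
  · rw [lv]
    rcases a with _ | a
    · rw [lv5, bet_gen _ _ _ _ (by omega), rotP_bf]; simp [st]
    · rw [lv5, tau_gen _ _ _ _ (by omega), bf_a]
      ext <;> simp [st] <;> ring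
  · rw [lv, lv6_gen _ _ _ _ hW, bet_gen _ _ _ _ h]; simp [st]

lemma lv_x0 (cl : Fin 4) (a b : ℕ) (k : ℕ) (hk : k ≤ 6) :
    lv x0 cl a b k = bf 1 cl a b + st 1 k := by
  have hx : x0.2.2 = 1 := rfl
  interval_cases k
  · rw [lv]
    by_cases hW : cl = 0 ∧ a = 0 ∧ b = 0
    · obtain ⟨rfl, rfl, rfl⟩ := hW
      rw [lv0, bet_x0]; simp [st, bf, rotM, od]
    · rw [lv0_gen _ _ _ _ hW, bet_x0]; simp [st]
  · rw [lv]
    rcases b with _ | b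
    · rw [lv1, bet_x0, hx, rotM_bf]; simp [st]
    · rw [lv1, tau_x0, bf_b]
      ext <;> simp [st] <;> ring
  · rw [lv, bet_x0, bf_a]; simp [st]
  · rw [lv, tau_x0]; ext <;> simp [st]; norm_num
  · rw [lv, bet_x0, bf_b]; simp [st]
  · rw [lv]
    rcases a with _ | a
    · rw [lv5, bet_x0, hx, rotP_bf]; simp [st]
    · rw [lv5, tau_x0, bf_a]
      ext <;> simp [st] <;> ring
  · rw [lv]
    by_cases hW : cl = 0 ∧ a = 0 ∧ b = 0
    · obtain ⟨rfl, rfl, rfl⟩ := hW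
      rw [lv6, bet_x0]; simp [st, bf, rotP, od]
    · rw [lv6_gen _ _ _ _ hW, bet_x0]; simp [st]

end Pool.Agent.EqTiling
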