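import Pool.Agent.EqTiling.Good

set_option autoImplicit false
set_option linter.unusedSimpArgs false

namespace Pool.Agent.EqTiling

open Filter Topology

lemma fneg0 : -(0 : Fin 4) = 0 := rfl
lemma fneg1 : -(1 : Fin 4) = 3 := rfl
lemma fneg2 : -(2 : Fin 4) = 2 := rfl
lemma fneg3 : -(3 : Fin 4) = 1 := rfl

lemma od_neg (cl : Fin 4) : od (-cl) = od cl := by revert cl; decide

lemma bf_mir (c : ℝ) (cl : Fin 4) (a b : ℕ) : bf c (-cl) b a = mir (bf c cl a b) := by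
  unfold bf mir
  rw [od_neg]
  ext
  · simp
  · show ((b : ℝ) + a) * (1 + c) + od cl = ((a : ℝ) + b) * (1 + c) + od cl
    ring

lemma bet_mir (x : XX) (cl : Fin 4) (a b : ℕ) : bet x (-cl) b a = mir (bet x cl a b) := by
  by_cases h : 2 ≤ a + b
  · rw [bet_gen _ _ _ _ h, bet_gen _ _ _ _ (by omega), bf_mir]
  · obtain ⟨rfl, rfl⟩ | ⟨rfl, rfl⟩ | ⟨rfl, rfl⟩ : (a = 0 ∧ b = 0) ∨ (a = 0 ∧ b = 1) ∨ (a = 1 ∧ b = 0) := by
      omega
    all_goals
      obtain rfl | rfl | rfl | rfl : cl = 0 ∨ cl = 1 ∨ cl = 2 ∨ cl = 3 := by revert cl; decide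
      all_goals
        simp only [fneg0, fneg1, fneg2, fneg3]
        simp [bet, mir]

lemma tau_mir (x : XX) (cl : Fin 4) (a b : ℕ) : tau x (-cl) b a = mir (tau x cl a b) := by
  by_cases h : 1 ≤ a + b
  · rw [tau_gen _ _ _ _ h, tau_gen _ _ _ _ (by omega), bf_mir]
    simp [mir]
  · obtain ⟨rfl, rfl⟩ : a = 0 ∧ b = 0 := by omega
    obtain rfl | rfl | rfl | rfl : cl = 0 ∨ cl = 1 ∨ cl = 2 ∨ cl = 3 := by revert cl; decide
    all_goals
      simp only [fneg0, fneg1, fneg2, fneg3]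
      simp [tau, mir]

lemma rotP_mir (c : ℝ) (p : ℝ × ℝ) : rotP c (mir p) = mir (rotM c p) := by
  unfold rotP rotM mir
  ext <;> simp <;> ring

lemma rotM_mir (c : ℝ) (p : ℝ × ℝ) : rotM c (mir p) = mir (rotP c p) := by
  unfold rotP rotM mir
  ext <;> simp <;> ring

lemma isW_neg (cl : Fin 4) : -cl = 0 ↔ cl = 0 := by revert cl; decide

lemma lv06_mir (x : XX) (cl : Fin 4) (a b : ℕ) : lv6 x (-cl) b a = mir (lv0 x cl a b) := by
  by_cases hW : cl = 0 ∧ a = 0 ∧ b = 0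
  · obtain ⟨rfl, rfl, rfl⟩ := hW
    rw [fneg0]
    show rotP x.2.2 (rotP x.2.2 (bet x 2 0 0)) = mir (rotM x.2.2 (rotM x.2.2 (bet x 2 0 0)))
    rw [← rotP_mir, ← rotP_mir, ← bet_mir, fneg2]
  · rw [lv0_gen _ _ _ _ hW, lv6_gen _ _ _ _ (by rw [isW_neg]; tauto), bet_mir]

lemma lv60_mir (x : XX) (cl : Fin 4) (a b : ℕ) : lv0 x (-cl) b a = mir (lv6 x cl a b) := by
  have := lv06_mir x (-cl) b a
  rw [neg_neg] at this
  rw [this]
  simp [mir]

lemma lv15_mir (x : XX) (cl : Fin 4) (a b : ℕ) : lv5 x (-cl) b a = mir (lv1 x cl a b) := by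
  rcases b with _ | b
  · show rotP x.2.2 (bet x (-cl + 1) (a + od (-cl)) 0) =
      mir (rotM x.2.2 (bet x (cl - 1) 0 (a + od cl)))
    rw [← rotP_mir, ← bet_mir, od_neg, neg_sub', sub_neg_eq_add]
  · exact tau_mir _ _ _ _

lemma lv51_mir (x : XX) (cl : Fin 4) (a b : ℕ) : lv1 x (-cl) b a = mir (lv5 x cl a b) := by
  have := lv15_mir x (-cl) b a
  rw [neg_neg] at this
  rw [this]
  simp [mir]

lemma lv_mir (x : XX) (cl : Fin 4) (a b : ℕ) (k : ℕ) (hk : k ≤ 6) :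
    lv x (-cl) b a (6 - k) = mir (lv x cl a b k) := by
  interval_cases k
  · exact lv06_mir _ _ _ _
  · exact lv15_mir _ _ _ _
  · exact bet_mir _ _ _ _
  · exact tau_mir _ _ _ _
  · exact bet_mir _ _ _ _
  · exact lv51_mir _ _ _ _
  · exact lv60_mir _ _ _ _

lemma L_mir (c : ℝ) (p q : ℝ × ℝ) : L c (mir p) (mir q) = L c q p := by
  unfold L mir
  congr 1
  simp
  ring

lemma X2_mir (p q : ℝ × ℝ) : X2 (mir p) (mir q) = X2 q p := by
  unfold X2 mir
  simp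
  ring

lemma per_mir (x : XX) (cl : Fin 4) (a b : ℕ) : per x (-cl) b a = per x cl a b := by
  unfold per
  rw [← Finset.sum_range_reflect]
  apply Finset.sum_congr rfl
  intro k hk
  rw [Finset.mem_range] at hk
  rw [show 6 - 1 - k + 1 = 6 - k by omega, show 6 - 1 - k = 6 - (k + 1) by omega,
    lv_mir _ _ _ _ _ (by omega), lv_mir _ _ _ _ _ (by omega), L_mir]

lemma ar_mir (x : XX) (cl : Fin 4) (a b : ℕ) : ar x (-cl) b a = ar x cl a b := by
  unfold ar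
  rw [← Finset.sum_range_reflect]
  apply Finset.sum_congr rfl
  intro k hk
  rw [Finset.mem_range] at hk
  rw [show 6 - 1 - k + 1 = 6 - k by omega, show 6 - 1 - k = 6 - (k + 1) by omega,
    lv_mir _ _ _ _ _ (by omega), lv_mir _ _ _ _ _ (by omega), X2_mir]

lemma total_area (x : XX) : ar x 0 0 0 + ar x 2 0 0 + 2 * (ar x 1 0 0 + ar x 0 0 1 +
    ar x 2 1 0 + ar x 1 1 0 + ar x 1 0 1) = 12 * (4 + 4 * x.2.2) := by
  simp [ar, X2, Finset.sum_range_succ, lv, lv0, lv1, lv5, lv6, bet, tau, bf, od, rotM, rotP,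
    neg1, pred0, succ0, pred1, succ1, pred2, succ2, pred3, succ3]
  ring

lemma per_exact (x : XX) (cl : Fin 4) (a b : ℕ) (h : 2 ≤ a + b) : per x cl a b = 6 := by
  unfold per
  simp only [Finset.sum_range_succ, Finset.sum_range_zero, zero_add, Nat.reduceAdd]
  rw [lv_exact _ _ _ _ h _ (by omega), lv_exact _ _ _ _ h _ (by omega),
    lv_exact _ _ _ _ h _ (by omega), lv_exact _ _ _ _ h _ (by omega),
    lv_exact _ _ _ _ h _ (by omega), lv_exact _ _ _ _ h _ (by omega),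
    lv_exact _ _ _ _ h _ (by omega)]
  set p := bf x.2.2 cl a b
  set c := x.2.2
  have e : ∀ q r : ℝ × ℝ, (1 - c ^ 2) * (r.1 - q.1) ^ 2 + (r.2 - q.2) ^ 2 = 1 →
      L c (p + q) (p + r) = 1 := by
    intro q r hqr
    unfold L
    simp only [Prod.fst_add, Prod.snd_add, add_sub_add_left_eq_sub]
    rw [hqr, Real.sqrt_one]
  rw [e _ _ (by simp only [st]; ring), e _ _ (by simp only [st]; ring),
    e _ _ (by simp only [st]; ring), e _ _ (by simp only [st]; ring),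
    e _ _ (by simp only [st]; ring), e _ _ (by simp only [st]; ring)]
  norm_num

lemma ar_exact (x : XX) (cl : Fin 4) (a b : ℕ) (h : 2 ≤ a + b) :
    ar x cl a b = 4 + 4 * x.2.2 := by
  unfold ar
  simp only [Finset.sum_range_succ, Finset.sum_range_zero, zero_add, Nat.reduceAdd]
  rw [lv_exact _ _ _ _ h _ (by omega), lv_exact _ _ _ _ h _ (by omega),
    lv_exact _ _ _ _ h _ (by omega), lv_exact _ _ _ _ h _ (by omega),
    lv_exact _ _ _ _ h _ (by omega), lv_exact _ _ _ _ h _ (by omega),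
    lv_exact _ _ _ _ h _ (by omega)]
  simp only [X2, Prod.fst_add, Prod.snd_add, st]
  ring

theorem per_eq (x : XX) (h : GG x = 0) (cl : Fin 4) (a b : ℕ) :
    per x cl a b = if cl = 0 ∧ a = 0 ∧ b = 0 then 6 - 2 * x.2.1 else 6 := by
  by_cases h2 : 2 ≤ a + b
  · rw [if_neg (by omega)]
    exact per_exact x cl a b h2
  · have g0 : per x 0 0 0 + 2 * x.2.1 - 6 = 0 := congrFun h 0
    have g1 : per x 2 0 0 - 6 = 0 := congrFun h 1
    have g2 : per x 1 0 0 - 6 = 0 := congrFun h 2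
    have g3 : per x 0 0 1 - 6 = 0 := congrFun h 3
    have g4 : per x 2 1 0 - 6 = 0 := congrFun h 4
    have g5 : per x 1 1 0 - 6 = 0 := congrFun h 5
    have g6 : per x 1 0 1 - 6 = 0 := congrFun h 6
    have m3 : per x 3 0 0 = per x 1 0 0 := per_mir x 1 0 0
    have m31 : per x 3 1 0 = per x 1 0 1 := per_mir x 1 0 1
    have m32 : per x 3 0 1 = per x 1 1 0 := per_mir x 1 1 0
    have m0 : per x 0 1 0 = per x 0 0 1 := per_mir x 0 0 1
    have m2 : per x 2 0 1 = per x 2 1 0 := per_mir x 2 1 0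
    obtain ⟨rfl, rfl⟩ | ⟨rfl, rfl⟩ | ⟨rfl, rfl⟩ : (a = 0 ∧ b = 0) ∨ (a = 0 ∧ b = 1) ∨
      (a = 1 ∧ b = 0) := by omega
    all_goals
      obtain rfl | rfl | rfl | rfl : cl = 0 ∨ cl = 1 ∨ cl = 2 ∨ cl = 3 := by revert cl; decide
      all_goals
        simp
        linarith

theorem ar_eq (x : XX) (h : GG x = 0) (cl : Fin 4) (a b : ℕ) :
    ar x cl a b = 4 + 4 * x.2.2 := by
  by_cases h2 : 2 ≤ a + b
  · exact ar_exact x cl a b h2
  · have g3 : ar x 0 0 1 - (4 + 4 * x.2.2) = 0 := congrFun h 7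
    have g5 : ar x 1 1 0 - (4 + 4 * x.2.2) = 0 := congrFun h 8
    have g6 : ar x 1 0 1 - (4 + 4 * x.2.2) = 0 := congrFun h 9
    have g4 : ar x 2 1 0 - (4 + 4 * x.2.2) = 0 := congrFun h 10
    have g2 : ar x 1 0 0 - (4 + 4 * x.2.2) = 0 := congrFun h 11
    have g0 : ar x 0 0 0 - (4 + 4 * x.2.2) = 0 := congrFun h 12
    have g1 := total_area x
    have m3 : ar x 3 0 0 = ar x 1 0 0 := ar_mir x 1 0 0
    have m31 : ar x 3 1 0 = ar x 1 0 1 := ar_mir x 1 0 1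
    have m32 : ar x 3 0 1 = ar x 1 1 0 := ar_mir x 1 1 0
    have m0 : ar x 0 1 0 = ar x 0 0 1 := ar_mir x 0 0 1
    have m2 : ar x 2 0 1 = ar x 2 1 0 := ar_mir x 2 1 0
    obtain ⟨rfl, rfl⟩ | ⟨rfl, rfl⟩ | ⟨rfl, rfl⟩ : (a = 0 ∧ b = 0) ∨ (a = 0 ∧ b = 1) ∨
      (a = 1 ∧ b = 0) := by omega
    all_goals
      obtain rfl | rfl | rfl | rfl : cl = 0 ∨ cl = 1 ∨ cl = 2 ∨ cl = 3 := by revert cl; decide
      all_goals
        linarith

end Pool.Agent.EqTiling
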