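import Pool.Agent.EqTiling.Polygon

namespace Pool.Agent.EqTiling

open Set MeasureTheory Filter Topology

/-- A family of convex polygons whose edges are matched in pairs of opposite directed edges. -/
structure Matched {ι : Type} (N : ι → ℕ) (V : ι → ℕ → ℂ) (μ : ι → ℕ → ι × ℕ) : Prop where
  three : ∀ i, 3 ≤ N i
  ccw : ∀ i, CCW (N i) (V i)
  closed : ∀ i, V i (N i) = V i 0
  lt : ∀ i k, k < N i → (μ i k).2 < N (μ i k).1
  start : ∀ i k, k < N i → V (μ i k).1 (μ i k).2 = V i (k + 1)
  fin : ∀ i k, k < N i → V (μ i k).1 ((μ i k).2 + 1) = V i k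
  invol : ∀ i k, k < N i → μ (μ i k).1 (μ i k).2 = (i, k)

/-- the polygon -/
def body {ι : Type} (N : ι → ℕ) (V : ι → ℕ → ℂ) (i : ι) : Set ℂ :=
  convexHull ℝ (V i '' Iio (N i))

section

variable {ι : Type} {N : ι → ℕ} {V : ι → ℕ → ℂ} {μ : ι → ℕ → ι × ℕ}

/-- strict inner part -/
def Inn (N : ι → ℕ) (V : ι → ℕ → ℂ) (i : ι) (x : ℂ) : Prop :=
  ∀ k < N i, 0 < ori (V i k) (V i (k + 1)) x

/-- closed part -/
def Clo (N : ι → ℕ) (V : ι → ℕ → ℂ) (i : ι) (x : ℂ) : Prop :=
  ∀ k < N i, 0 ≤ ori (V i k) (V i (k + 1)) x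

lemma Inn.clo {i : ι} {x : ℂ} (h : Inn N V i x) : Clo N V i x := fun k hk => (h k hk).le

open Classical in
/-- weight of a polygon at a point: 2 inside, 1 on the boundary, 0 outside -/
noncomputable def wt (N : ι → ℕ) (V : ι → ℕ → ℂ) (i : ι) (x : ℂ) : ℤ :=
  if Inn N V i x then 2 else if Clo N V i x then 1 else 0

/-- total weight -/
noncomputable def cnt (N : ι → ℕ) (V : ι → ℕ → ℂ) (x : ℂ) : ℤ := ∑ᶠ i, wt N V i x

/-- set of vertices -/
def verts (N : ι → ℕ) (V : ι → ℕ → ℂ) : Set ℂ := ⋃ i, V i '' Iio (N i)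

lemma mem_body_iff (h : Matched N V μ) (i : ι) (x : ℂ) : x ∈ body N V i ↔ Clo N V i x :=
  (h.ccw i).mem_hull_iff (h.three i) (h.closed i) x

lemma isOpen_inn (i : ι) : IsOpen {x | Inn N V i x} := by
  have : {x | Inn N V i x} = ⋂ k ∈ Finset.range (N i), {x | 0 < ori (V i k) (V i (k + 1)) x} := by
    ext x; simp [Inn]
  rw [this]
  exact isOpen_biInter_finset (fun k _ => isOpen_lt continuous_const (continuous_ori _ _))

lemma isClosed_clo (i : ι) : IsClosed {x | Clo N V i x} := by
  have : {x | Clo N V i x} = ⋂ k ∈ Finset.range (N i), {x | 0 ≤ ori (V i k) (V i (k + 1)) x} := by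
    ext x; simp [Clo]
  rw [this]
  exact isClosed_biInter (fun k _ => isClosed_le continuous_const (continuous_ori _ _))

lemma wt_pos_clo {i : ι} {x : ℂ} (h : wt N V i x ≠ 0) : Clo N V i x := by
  classical
  unfold wt at h
  split_ifs at h with h1 h2
  · exact h1.clo
  · exact h2
  · exact absurd rfl h

/-- weight in terms of one edge, when all the other inequalities are strict -/
lemma wt_of_edge {i : ι} {k : ℕ} (hk : k < N i) {y : ℂ}
    (h : ∀ j < N i, j ≠ k → 0 < ori (V i j) (V i (j + 1)) y) :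
    wt N V i y = if 0 < ori (V i k) (V i (k + 1)) y then 2
      else if ori (V i k) (V i (k + 1)) y = 0 then 1 else 0 := by
  classical
  unfold wt
  by_cases h1 : 0 < ori (V i k) (V i (k + 1)) y
  · have : Inn N V i y := by
      intro j hj
      by_cases hjk : j = k
      · rw [hjk]; exact h1
      · exact h j hj hjk
    rw [if_pos this, if_pos h1]
  · have hn : ¬ Inn N V i y := fun hI => h1 (hI k hk)
    rw [if_neg hn, if_neg h1]
    by_cases h2 : ori (V i k) (V i (k + 1)) y = 0
    · have : Clo N V i y := by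
        intro j hj
        by_cases hjk : j = k
        · rw [hjk, h2]
        · exact (h j hj hjk).le
      rw [if_pos this, if_pos h2]
    · have : ¬ Clo N V i y := fun hC => h2 (le_antisymm (not_lt.mp h1) (hC k hk))
      rw [if_neg this, if_neg h2]

/-- local constancy away from the vertices -/
lemma cnt_locally_const (h : Matched N V μ) (hlf : LocallyFinite (body N V)) {x : ℂ}
    (hx : x ∉ verts N V) : ∀ᶠ y in 𝓝 x, cnt N V y = cnt N V x := by
  classical
  obtain ⟨N0, hN0, hfin⟩ := hlf x
  set F := hfin.toFinset with hF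
  have hxv : ∀ i, ∀ k < N i, x ≠ V i k := by
    intro i k hk he
    exact hx (mem_iUnion.mpr ⟨i, k, hk, he.symm⟩)
  -- sums over F
  have hsum : ∀ y ∈ N0, cnt N V y = ∑ i ∈ F, wt N V i y := by
    intro y hy
    unfold cnt
    apply finsum_eq_sum_of_support_subset
    intro i hi
    have h1 : Clo N V i y := wt_pos_clo hi
    simp only [hF, Finite.coe_toFinset, mem_ofPred_eq]
    exact ⟨y, (mem_body_iff h i y).mpr h1, hy⟩
  have hxN : x ∈ N0 := mem_of_mem_nhds hN0
  -- the chosen edge
  have hedge : ∀ i, ∃ k, (Clo N V i x ∧ ¬ Inn N V i x) →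
      k < N i ∧ ori (V i k) (V i (k + 1)) x = 0 := by
    intro i
    by_cases hB : Clo N V i x ∧ ¬ Inn N V i x
    · obtain ⟨h1, h2⟩ := hB
      unfold Inn at h2
      push Not at h2
      obtain ⟨k, hk, hk2⟩ := h2
      exact ⟨k, fun _ => ⟨hk, le_antisymm hk2 (h1 k hk)⟩⟩
    · exact ⟨0, fun hh => absurd hh hB⟩
  choose e he using hedge
  -- facts about boundary tiles
  have hpt : ∀ i, (Clo N V i x ∧ ¬ Inn N V i x) → ∃ t : ℝ, 0 < t ∧ t < 1 ∧
      x = (1 - t) • V i (e i) + t • V i (e i + 1) := by
    intro i hB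
    exact (h.ccw i).edge_point (h.three i) (h.closed i) hB.1 (hxv i) (he i hB).1 (he i hB).2
  have hpartner : ∀ i, (Clo N V i x ∧ ¬ Inn N V i x) →
      (Clo N V (μ i (e i)).1 x ∧ ¬ Inn N V (μ i (e i)).1 x) ∧
      e (μ i (e i)).1 = (μ i (e i)).2 := by
    intro i hB
    obtain ⟨hk, hk0⟩ := he i hB
    obtain ⟨t, ht0, ht1, hxt⟩ := hpt i hB
    set i' := (μ i (e i)).1 with hi'
    set k' := (μ i (e i)).2 with hk'
    have hlt : k' < N i' := h.lt i (e i) hk
    have hs : V i' k' = V i (e i + 1) := h.start i (e i) hk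
    have hf : V i' (k' + 1) = V i (e i) := h.fin i (e i) hk
    have hx' : x = (1 - (1 - t)) • V i' k' + (1 - t) • V i' (k' + 1) := by
      rw [hs, hf, hxt]
      rw [show (1 - (1 - t)) = t by ring, add_comm]
    have hstrict : ∀ j < N i', j ≠ k' → 0 < ori (V i' j) (V i' (j + 1)) x := fun j hj hjk =>
      (h.ccw i').edge_strict (h.three i') (h.closed i') hlt (by linarith) (by linarith) hx' hj hjk
    have hzero : ori (V i' k') (V i' (k' + 1)) x = 0 := by
      rw [hs, hf, ori_swap, hk0, neg_zero]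
    have hB' : Clo N V i' x ∧ ¬ Inn N V i' x := by
      refine ⟨?_, fun hI => ?_⟩
      · intro j hj
        by_cases hjk : j = k'
        · rw [hjk, hzero]
        · exact (hstrict j hj hjk).le
      · have := hI k' hlt
        rw [hzero] at this
        exact lt_irrefl _ this
    refine ⟨hB', ?_⟩
    by_contra hne
    have h3 := hstrict (e i') (he i' hB').1 hne
    rw [(he i' hB').2] at h3
    exact lt_irrefl _ h3
  have hmemF : ∀ i, Clo N V i x → i ∈ F := by
    intro i hC
    simp only [hF, Finite.mem_toFinset, mem_ofPred_eq]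
    exact ⟨x, (mem_body_iff h i x).mpr hC, hxN⟩
  -- eventual statements
  have hev : ∀ᶠ y in 𝓝 x, ∀ i ∈ F,
      ((¬ Clo N V i x → ¬ Clo N V i y) ∧ (Inn N V i x → Inn N V i y) ∧
      ((Clo N V i x ∧ ¬ Inn N V i x) → ∀ j < N i, j ≠ e i →
        0 < ori (V i j) (V i (j + 1)) y)) := by
    rw [eventually_all_finset]
    intro i _
    refine Eventually.and ?_ (Eventually.and ?_ ?_)
    · by_cases hC : Clo N V i x
      · exact Eventually.of_forall (fun y hn => absurd hC hn)
      · have : ∀ᶠ y in 𝓝 x, y ∈ {x | Clo N V i x}ᶜ :=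
          (isClosed_clo i).isOpen_compl.mem_nhds hC
        filter_upwards [this] with y hy _
        exact hy
    · by_cases hI : Inn N V i x
      · have : ∀ᶠ y in 𝓝 x, y ∈ {x | Inn N V i x} := (isOpen_inn i).mem_nhds hI
        filter_upwards [this] with y hy _
        exact hy
      · exact Eventually.of_forall (fun y hn => absurd hn hI)
    · by_cases hB : Clo N V i x ∧ ¬ Inn N V i x
      · obtain ⟨t, ht0, ht1, hxt⟩ := hpt i hB
        have hall : ∀ᶠ y in 𝓝 x, ∀ j ∈ (Finset.range (N i)).erase (e i),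
            0 < ori (V i j) (V i (j + 1)) y := by
          rw [eventually_all_finset]
          intro j hj
          rw [Finset.mem_erase, Finset.mem_range] at hj
          have h5 := (h.ccw i).edge_strict (h.three i) (h.closed i) (he i hB).1 ht0 ht1 hxt
            hj.2 hj.1
          exact (continuous_ori _ _).continuousAt.eventually (lt_mem_nhds h5)
        filter_upwards [hall] with y hy _ j hj hje
        exact hy j (by rw [Finset.mem_erase, Finset.mem_range]; exact ⟨hje, hj⟩)
      · exact Eventually.of_forall (fun y hn => absurd hn hB)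
  filter_upwards [hN0, hev] with y hyN hy
  rw [hsum y hyN, hsum x hxN, ← sub_eq_zero, ← Finset.sum_sub_distrib]
  -- restrict to boundary tiles
  rw [← Finset.sum_filter_add_sum_filter_not F (fun i => Clo N V i x ∧ ¬ Inn N V i x)]
  have hz : ∑ i ∈ F with ¬ (Clo N V i x ∧ ¬ Inn N V i x), (wt N V i y - wt N V i x) = 0 := by
    apply Finset.sum_eq_zero
    intro i hi
    rw [Finset.mem_filter] at hi
    obtain ⟨hiF, hnB⟩ := hi
    obtain ⟨h1, h2, -⟩ := hy i hiF
    by_cases hI : Inn N V i x
    · have hIy := h2 hI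
      simp [wt, hI, hIy]
    · have hC : ¬ Clo N V i x := fun hC => hnB ⟨hC, hI⟩
      have hCy := h1 hC
      have hIy : ¬ Inn N V i y := fun hh => hCy hh.clo
      simp [wt, hI, hC, hCy, hIy]
  rw [hz, add_zero]
  have hone : ∀ i, (Clo N V i x ∧ ¬ Inn N V i x) → wt N V i x = 1 := by
    intro i hB
    simp [wt, hB.1, hB.2]
  refine Finset.sum_involution (fun i _ => (μ i (e i)).1) ?_ ?_ ?_ ?_
  · intro i hi
    rw [Finset.mem_filter] at hi
    obtain ⟨hiF, hB⟩ := hi
    obtain ⟨hB', he'⟩ := hpartner i hB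
    obtain ⟨hk, hk0⟩ := he i hB
    have hiF' : (μ i (e i)).1 ∈ F := hmemF _ hB'.1
    have hw1 := wt_of_edge (V := V) (he i hB).1 ((hy i hiF).2.2 hB)
    have hw2 := wt_of_edge (V := V) (he _ hB').1 ((hy _ hiF').2.2 hB')
    rw [he', h.start i (e i) hk, h.fin i (e i) hk, ori_swap] at hw2
    rw [hone i hB, hone _ hB', hw1, hw2]
    rcases lt_trichotomy (ori (V i (e i)) (V i (e i + 1)) y) 0 with h3 | h3 | h3
    · have h4 : ¬ (0 < ori (V i (e i)) (V i (e i + 1)) y) := by linarith
      have h5 : ¬ (ori (V i (e i)) (V i (e i + 1)) y = 0) := by linarith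
      have h6 : 0 < - ori (V i (e i)) (V i (e i + 1)) y := by linarith
      rw [if_neg h4, if_neg h5, if_pos h6]; norm_num
    · rw [h3]; norm_num
    · have h4 : ¬ (0 < - ori (V i (e i)) (V i (e i + 1)) y) := by linarith
      have h5 : ¬ (- ori (V i (e i)) (V i (e i + 1)) y = 0) := by
        intro h7; linarith
      rw [if_pos h3, if_neg h4, if_neg h5]; norm_num
  · intro i hi _ heq
    rw [Finset.mem_filter] at hi
    obtain ⟨hiF, hB⟩ := hi
    obtain ⟨hB', he'⟩ := hpartner i hB
    obtain ⟨hk, hk0⟩ := he i hB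
    -- then V i k = V i (k+1), impossible
    have h2 : (μ i (e i)).2 = e i := by rw [← he', heq]
    have h3 := h.start i (e i) hk
    rw [heq, h2] at h3
    obtain ⟨l, hl, -, hpos⟩ := (h.ccw i).corner (h.three i) (h.closed i) hk
    rw [← h3] at hpos
    have : ori (V i (e i)) (V i (e i)) (V i l) = 0 := by
      simp [ori]
    rw [this] at hpos
    exact lt_irrefl _ hpos
  · intro i hi
    rw [Finset.mem_filter] at hi ⊢
    obtain ⟨hiF, hB⟩ := hi
    obtain ⟨hB', he'⟩ := hpartner i hB
    exact ⟨hmemF _ hB'.1, hB'⟩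
  · intro i hi
    rw [Finset.mem_filter] at hi
    obtain ⟨hiF, hB⟩ := hi
    obtain ⟨hB', he'⟩ := hpartner i hB
    obtain ⟨hk, hk0⟩ := he i hB
    show (μ (μ i (e i)).1 (e (μ i (e i)).1)).1 = i
    rw [he', h.invol i (e i) hk]

/-- The interior of a convex polygon is given by the strict inequalities. -/
lemma interior_sub_inn (h : Matched N V μ) {i : ι} {x : ℂ} (hx : x ∈ interior (body N V i)) :
    Inn N V i x := by
  intro k hk
  by_contra hneg
  have hC : Clo N V i x := (mem_body_iff h i x).mp (interior_subset hx)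
  have h0 : ori (V i k) (V i (k + 1)) x = 0 := le_antisymm (not_lt.mp hneg) (hC k hk)
  -- a third vertex
  obtain ⟨l, hl, -, hpos⟩ := (h.ccw i).corner (h.three i) (h.closed i) hk
  -- move away from it
  set d := x - V i l with hd
  have hcont : Tendsto (fun t : ℝ => x + t • d) (𝓝 0) (𝓝 (x + (0:ℝ) • d)) := by
    apply Continuous.tendsto
    fun_prop
  rw [zero_smul, add_zero] at hcont
  have hev : ∀ᶠ t in 𝓝 (0:ℝ), x + t • d ∈ body N V i :=
    hcont.eventually (mem_interior_iff_mem_nhds.mp hx)
  obtain ⟨t, ht, ht0⟩ : ∃ t : ℝ, x + t • d ∈ body N V i ∧ 0 < t := by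
    have h2 : ∀ᶠ t in 𝓝[>] (0:ℝ), x + t • d ∈ body N V i := hev.filter_mono nhdsWithin_le_nhds
    exact ((h2.and self_mem_nhdsWithin).exists).imp (fun t ht => ⟨ht.1, ht.2⟩)
  have h3 := (mem_body_iff h i _).mp ht k hk
  have h4 : x + t • d = (1 + t) • x + (-t) • V i l := by
    rw [hd, smul_sub, add_smul, one_smul, neg_smul]; ring
  rw [h4, ori_comb _ _ _ _ _ _ (by ring), h0] at h3
  have := mul_pos ht0 hpos
  linarith

/-- **Edge-matched families of convex polygons tile the plane.** -/
theorem tiling_of_matched [Countable ι] (h : Matched N V μ) (hlf : LocallyFinite (body N V))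
    {x0 : ℂ} (hx0 : x0 ∉ verts N V) {i0 : ι} (hi0 : Inn N V i0 x0)
    (hother : ∀ i, i ≠ i0 → ¬ Clo N V i x0) :
    (⋃ i, body N V i) = univ ∧
      ∀ i j, i ≠ j → Disjoint (interior (body N V i)) (interior (body N V j)) := by
  classical
  have hcount : (verts N V).Countable := by
    unfold verts
    exact countable_iUnion (fun i => ((finite_Iio (N i)).image _).countable)
  have hrank : 1 < Module.rank ℝ ℂ := by simp
  have hconn : IsPreconnected (verts N V)ᶜ :=
    (hcount.isConnected_compl_of_one_lt_rank hrank).isPreconnected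
  have hcontOn : ContinuousOn (cnt N V) (verts N V)ᶜ := by
    intro x hx
    apply ContinuousAt.continuousWithinAt
    have := cnt_locally_const h hlf hx
    exact tendsto_nhds_of_eventually_eq this
  have hx0val : cnt N V x0 = 2 := by
    unfold cnt
    rw [finsum_eq_single _ i0]
    · simp [wt, hi0]
    · intro i hi
      by_contra hne
      exact hother i hi (wt_pos_clo hne)
  have hconst : ∀ x ∉ verts N V, cnt N V x = 2 := by
    intro x hx
    rw [← hx0val]
    exact hconn.constant hcontOn hx hx0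
  have hdense : Dense (verts N V)ᶜ := hcount.dense_compl ℝ
  have hclosed : IsClosed (⋃ i, body N V i) := by
    apply hlf.isClosed_iUnion
    intro i
    have : body N V i = {x | Clo N V i x} := by ext x; exact mem_body_iff h i x
    rw [this]
    exact isClosed_clo i
  refine ⟨?_, ?_⟩
  · have hsub : (verts N V)ᶜ ⊆ ⋃ i, body N V i := by
      intro x hx
      by_contra hno
      have : cnt N V x = 0 := by
        unfold cnt
        apply finsum_eq_zero_of_forall_eq_zero
        intro i
        by_contra hne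
        exact hno (mem_iUnion.mpr ⟨i, (mem_body_iff h i x).mpr (wt_pos_clo hne)⟩)
      rw [hconst x hx] at this
      norm_num at this
    have := hclosed.closure_subset_iff.mpr hsub
    rw [hdense.closure_eq] at this
    exact univ_subset_iff.mp this
  · intro i j hij
    rw [Set.disjoint_left]
    intro x hxi hxj
    have hopen : IsOpen (interior (body N V i) ∩ interior (body N V j)) :=
      isOpen_interior.inter isOpen_interior
    obtain ⟨y, ⟨hyi, hyj⟩, hyv⟩ := hdense.inter_open_nonempty _ hopen ⟨x, hxi, hxj⟩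
    have hIi := interior_sub_inn h hyi
    have hIj := interior_sub_inn h hyj
    have hval := hconst y hyv
    -- the sum is at least 4
    obtain ⟨N0, hN0, hfin⟩ := hlf y
    have hyN : y ∈ N0 := mem_of_mem_nhds hN0
    have hsum : cnt N V y = ∑ i ∈ hfin.toFinset, wt N V i y := by
      unfold cnt
      apply finsum_eq_sum_of_support_subset
      intro i hi
      have h1 : Clo N V i y := wt_pos_clo hi
      simp only [Finite.coe_toFinset, mem_ofPred_eq]
      exact ⟨y, (mem_body_iff h i y).mpr h1, hyN⟩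
    have hsub : ({i, j} : Finset ι) ⊆ hfin.toFinset := by
      intro l hl
      simp only [Finset.mem_insert, Finset.mem_singleton] at hl
      simp only [Finite.mem_toFinset, mem_ofPred_eq]
      rcases hl with rfl | rfl
      · exact ⟨y, (mem_body_iff h _ y).mpr hIi.clo, hyN⟩
      · exact ⟨y, (mem_body_iff h _ y).mpr hIj.clo, hyN⟩
    have hnn : ∀ l ∈ hfin.toFinset, l ∉ ({i, j} : Finset ι) → 0 ≤ wt N V l y := by
      intro l _ _
      unfold wt
      split_ifs <;> norm_num
    have hle := Finset.sum_le_sum_of_subset_of_nonneg hsub hnn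
    rw [Finset.sum_pair hij, ← hsum, hval] at hle
    simp [wt, hIi, hIj] at hle

end

end Pool.Agent.EqTiling
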