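import Pool.Agent.EqTiling.Comb
import Pool.Agent.EqTiling.Mirror
import Pool.Agent.EqTiling.Tiling
import Pool.Agent.EqTiling.Area

set_option autoImplicit false
set_option linter.unusedSimpArgs false
set_option linter.unusedSectionVars false

namespace Pool.Agent.EqTiling

open Set MeasureTheory Filter Topology

/-- from scaled coordinates to the plane -/
def toC (s : ℝ) (p : ℝ × ℝ) : ℂ := ⟨p.2, s * p.1⟩

/-- unit vectors -/
noncomputable def ee {m : ℕ} [NeZero m] (j : ZMod (4 * m)) : ℂ := ZMod.stdAddChar j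

section

variable {m : ℕ} [NeZero m]

lemma ee_add (i j : ZMod (4 * m)) : ee (i + j) = ee i * ee j := AddChar.map_add_eq_mul _ _ _

lemma norm_ee (j : ZMod (4 * m)) : ‖ee j‖ = 1 := by
  unfold ee
  rw [ZMod.stdAddChar_apply]
  exact Circle.norm_coe _

lemma normSq_ee (j : ZMod (4 * m)) : (ee j).re * (ee j).re + (ee j).im * (ee j).im = 1 := by
  have h := Complex.normSq_eq_norm_sq (ee j)
  rw [norm_ee, Complex.normSq_apply] at h
  simpa using h

lemma ee_int (k : ℤ) : ee ((k : ℤ) : ZMod (4 * m)) =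
    ⟨Real.cos (k * (Real.pi / (2 * m))), Real.sin (k * (Real.pi / (2 * m)))⟩ := by
  unfold ee
  rw [ZMod.stdAddChar_coe]
  have hm : (m : ℂ) ≠ 0 := Nat.cast_ne_zero.mpr (NeZero.ne m)
  have : (2 * (Real.pi : ℂ) * Complex.I * (k : ℂ) / ((4 * m : ℕ) : ℂ)) =
      ((k * (Real.pi / (2 * m)) : ℝ) : ℂ) * Complex.I := by
    push_cast
    field_simp
    ring
  rw [this]
  apply Complex.ext
  · rw [Complex.exp_ofReal_mul_I_re]
  · rw [Complex.exp_ofReal_mul_I_im]

lemma ee_one : ee (1 : ZMod (4 * m)) =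
    ⟨Real.cos (Real.pi / (2 * m)), Real.sin (Real.pi / (2 * m))⟩ := by
  have := ee_int (m := m) 1
  simpa using this

lemma ee_neg_one : ee (-1 : ZMod (4 * m)) =
    ⟨Real.cos (Real.pi / (2 * m)), -Real.sin (Real.pi / (2 * m))⟩ := by
  have := ee_int (m := m) (-1)
  simpa using this

end

/-- hypotheses on the parameters -/
structure Par (m : ℕ) (x : XX) (s : ℝ) : Prop where
  hm : 2 ≤ m
  hc : x.2.2 = Real.cos (Real.pi / (2 * m))
  hs : s = Real.sin (Real.pi / (2 * m))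
  hR : 0 < x.2.1
  good : Good x
  eqs : GG x = 0

section

variable {m : ℕ} [NeZero m] {x : XX} {s : ℝ}

lemma Par.cs (h : Par m x s) : s ^ 2 = 1 - x.2.2 ^ 2 := by
  rw [h.hc, h.hs, Real.sin_sq]

lemma Par.s_pos (h : Par m x s) : 0 < s := by
  rw [h.hs]
  apply Real.sin_pos_of_pos_of_lt_pi
  · have : (0 : ℝ) < m := by exact_mod_cast (by have := h.hm; omega : 0 < m)
    positivity
  · have h2 : (2 : ℝ) ≤ m := by exact_mod_cast h.hm
    rw [div_lt_iff₀ (by positivity)]
    nlinarith [Real.pi_pos]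

lemma ee_rotP (h : Par m x s) (j : ZMod (4 * m)) (p : ℝ × ℝ) :
    ee j * toC s (rotP x.2.2 p) = ee (j + 1) * toC s p := by
  rw [ee_add, mul_assoc]
  congr 1
  rw [ee_one, ← h.hc, ← h.hs]
  have hs := h.cs
  unfold toC rotP
  apply Complex.ext
  · simp only [Complex.mul_re]
    linear_combination (p.1) * hs
  · simp only [Complex.mul_im]
    ring

lemma ee_rotM (h : Par m x s) (j : ZMod (4 * m)) (p : ℝ × ℝ) :
    ee j * toC s (rotM x.2.2 p) = ee (j - 1) * toC s p := by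
  rw [sub_eq_add_neg, ee_add, mul_assoc]
  congr 1
  rw [ee_neg_one, ← h.hc, ← h.hs]
  have hs := h.cs
  unfold toC rotM
  apply Complex.ext
  · simp only [Complex.mul_re]
    linear_combination (-p.1) * hs
  · simp only [Complex.mul_im]
    ring

/-- global bottom vertices -/
noncomputable def BB (x : XX) (s : ℝ) (j : ZMod (4 * m)) (a b : ℕ) : ℂ :=
  ee j * toC s (bet x (cls j) a b)

/-- global top vertices -/
noncomputable def TT (x : XX) (s : ℝ) (j : ZMod (4 * m)) (a b : ℕ) : ℂ :=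
  ee j * toC s (tau x (cls j) a b)

/-- vertices of the tiles -/
noncomputable def VX (m : ℕ) [NeZero m] (x : XX) (s : ℝ) (i : Tl m) (k : ℕ) : ℂ :=
  ee i.1 * toC s (lv x (cls i.1) i.2.1 i.2.2 k)

lemma toC_zero : toC s (0, 0) = 0 := by
  unfold toC
  apply Complex.ext <;> simp

lemma VV_eq0 (h : Par m x s) (j : ZMod (4 * m)) (a b : ℕ) :
    ee j * toC s (lv0 x (cls j) a b) =
      if IsW (j, a, b) then BB x s (j - 2) 0 0 else BB x s j a b := by
  by_cases hW : IsW (j, a, b)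
  · rw [if_pos hW]
    obtain ⟨h1, h2, h3⟩ := hW
    simp only at h1 h2 h3
    subst h2 h3
    rw [h1]
    show ee j * toC s (rotM x.2.2 (rotM x.2.2 (bet x 2 0 0))) = _
    rw [ee_rotM h, ee_rotM h]
    unfold BB
    have h4 : cls (j - 2) = 2 := by rw [cls_sub, h1, cls_two]; rfl
    rw [h4, show j - 1 - 1 = j - 2 by ring]
  · rw [if_neg hW, lv0_gen _ _ _ _ hW]
    rfl

lemma VV_eq6 (h : Par m x s) (j : ZMod (4 * m)) (a b : ℕ) :
    ee j * toC s (lv6 x (cls j) a b) =
      if IsW (j, a, b) then BB x s (j + 2) 0 0 else BB x s j a b := by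
  by_cases hW : IsW (j, a, b)
  · rw [if_pos hW]
    obtain ⟨h1, h2, h3⟩ := hW
    simp only at h1 h2 h3
    subst h2 h3
    rw [h1]
    show ee j * toC s (rotP x.2.2 (rotP x.2.2 (bet x 2 0 0))) = _
    rw [ee_rotP h, ee_rotP h]
    unfold BB
    have h4 : cls (j + 2) = 2 := by rw [cls_add, h1, cls_two]; rfl
    rw [h4, show j + 1 + 1 = j + 2 by ring]
  · rw [if_neg hW, lv6_gen _ _ _ _ hW]
    rfl

lemma VV_eq1 (h : Par m x s) (j : ZMod (4 * m)) (a b : ℕ) :
    ee j * toC s (lv1 x (cls j) a b) = VV (BB x s) (TT x s) (j, a, b) 1 := by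
  rcases b with _ | b
  · rw [VV1z]
    show ee j * toC s (rotM x.2.2 (bet x (cls j - 1) 0 (a + od (cls j)))) = _
    rw [ee_rotM h]
    unfold BB
    rw [cls_sub, cls_one]
  · rfl

lemma VV_eq5 (h : Par m x s) (j : ZMod (4 * m)) (a b : ℕ) :
    ee j * toC s (lv5 x (cls j) a b) = VV (BB x s) (TT x s) (j, a, b) 5 := by
  rcases a with _ | a
  · rw [VV5z]
    show ee j * toC s (rotP x.2.2 (bet x (cls j + 1) (b + od (cls j)) 0)) = _
    rw [ee_rotP h]
    unfold BB
    rw [cls_add, cls_one]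
  · rfl

lemma VX_eq (h : Par m x s) (i : Tl m) (k : ℕ) :
    VX m x s i k = VV (BB x s) (TT x s) i k := by
  obtain ⟨j, a, b⟩ := i
  match k with
  | 0 => exact VV_eq0 h j a b
  | 1 => exact VV_eq1 h j a b
  | 2 => rfl
  | 3 => rfl
  | 4 => rfl
  | 5 => exact VV_eq5 h j a b
  | 6 => exact VV_eq6 h j a b
  | 7 =>
    show ee j * toC s (0, 0) = 0
    rw [toC_zero, mul_zero]
  | k + 8 => exact VV_eq0 h j a b

end

end Pool.Agent.EqTiling
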