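import Pool.Agent.EqTiling.Solve

set_option autoImplicit false
set_option linter.unusedSimpArgs false

namespace Pool.Agent.EqTiling

open Filter Topology

lemma st_ccw (c : ℝ) (hc : 0 < c) (i j k : ℕ) (hij : i < j) (hjk : j < k) (hk : k ≤ 6)
    (h : ¬ (i = 0 ∧ k = 6)) : 0 < ori2 (st c i) (st c j) (st c k) := by
  interval_cases k
  all_goals first
    | omega
    | interval_cases j
  all_goals first
    | omega
    | interval_cases i
  all_goals first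
    | omega
    | (simp only [st, ori2]; linarith)

lemma ori2_add (p q r s : ℝ × ℝ) : ori2 (s + p) (s + q) (s + r) = ori2 p q r := by
  unfold ori2
  simp only [Prod.fst_add, Prod.snd_add]
  ring

lemma ev_pos {f : XX → ℝ} (hf : Continuous f) (h : 0 < f x0) : ∀ᶠ x in 𝓝 x0, 0 < f x :=
  continuousAt_const.eventually_lt hf.continuousAt h

/-- direction of the first vertex of the octagon -/
def uL (c : ℝ) : ℝ × ℝ := (-(2 * c), 2 * c ^ 2 - 1)
/-- direction of the seventh vertex of the octagon -/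
def uR (c : ℝ) : ℝ × ℝ := (2 * c, 2 * c ^ 2 - 1)

/-- open conditions -/
structure Good (x : XX) : Prop where
  ccw : ∀ cl : Fin 4, ∀ a b : Fin 2, ∀ i j k : Fin 7, i < j → j < k → ¬ (i = 0 ∧ k = 6) →
    0 < ori2 (lv x cl a b i) (lv x cl a b j) (lv x cl a b k)
  posY : ∀ cl : Fin 4, ∀ a b : Fin 2, ∀ k : Fin 6, ¬ (k = 0 ∧ (cl = 0 ∨ cl = 2) ∧ a = 0 ∧ b = 0) →
    0 < (lv x cl a b k).2 - 1 / 2
  wY : ∀ j : Fin 7, 0 < j → j < 6 → 0 < (lv x 0 0 0 j).2 - (lv x 0 0 0 0).2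
  wL : ∀ j : Fin 7, 0 < j → j < 6 → 0 < X2 (uL x.2.2) (lv x 0 0 0 j)
  wR : ∀ j : Fin 7, 0 < j → j < 6 → 0 < X2 (lv x 0 0 0 j) (uR x.2.2)
  wX : ∀ i j : Fin 7, 0 < i → i < j → j < 6 → 0 < X2 (lv x 0 0 0 i) (lv x 0 0 0 j)
  w0 : 0 < (lv x 0 0 0 0).1 - (lv x 0 0 0 1).1
  w5 : 0 < (lv x 0 0 0 5).1 - (lv x 0 0 0 6).1
  wi : ∀ i : Fin 7, 0 < i → i < 5 →
    0 < X2 (lv x 0 0 0 i) (lv x 0 0 0 (i + 1)) +
      1 / 4 * ((lv x 0 0 0 i).1 - (lv x 0 0 0 (i + 1)).1)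
  hc : 0 < x.2.2 - 3 / 4
  hR : 0 < 1 / 4 - x.2.1

lemma cont_lv (cl : Fin 4) (a b k : ℕ) : Continuous (fun x => lv x cl a b k) :=
  (cd_lv cl a b k).continuous

lemma bf_zero : bf 1 0 0 0 = (0, 0) := by simp [bf, od]

theorem good_ev : ∀ᶠ x in 𝓝 x0, Good x := by
  have hx : x0.2.2 = 1 := rfl
  have h1 : ∀ᶠ x in 𝓝 x0, ∀ cl : Fin 4, ∀ a b : Fin 2, ∀ i j k : Fin 7, i < j → j < k →
      ¬ (i = 0 ∧ k = 6) → 0 < ori2 (lv x cl a b i) (lv x cl a b j) (lv x cl a b k) := by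
    simp only [eventually_all, eventually_imp_distrib_left]
    intro cl a b i j k hij hjk h
    apply ev_pos
    · have c1 := cont_lv cl a b i
      have c2 := cont_lv cl a b j
      have c3 := cont_lv cl a b k
      unfold ori2
      fun_prop
    · rw [lv_x0 _ _ _ _ (by omega), lv_x0 _ _ _ _ (by omega), lv_x0 _ _ _ _ (by omega), ori2_add]
      exact st_ccw 1 one_pos i j k hij hjk (by omega) (by omega)
  have h2 : ∀ᶠ x in 𝓝 x0, ∀ cl : Fin 4, ∀ a b : Fin 2, ∀ k : Fin 6,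
      ¬ (k = 0 ∧ (cl = 0 ∨ cl = 2) ∧ a = 0 ∧ b = 0) → 0 < (lv x cl a b k).2 - 1 / 2 := by
    simp only [eventually_all, eventually_imp_distrib_left]
    intro cl a b k h
    apply ev_pos
    · have c1 := cont_lv cl a b k
      fun_prop
    · rw [lv_x0 _ _ _ _ (by omega)]
      revert cl a b k
      simp only [Fin.forall_fin_succ, Fin.forall_fin_zero_pi]
      simp [bf, st, od]
      norm_num
  have e : ∀ k, k ≤ 6 → lv x0 0 0 0 k = st 1 k := by
    intro k hk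
    rw [lv_x0 _ _ _ _ hk, bf_zero]
    simp
  have h3 : ∀ᶠ x in 𝓝 x0, ∀ j : Fin 7, 0 < j → j < 6 →
      0 < (lv x 0 0 0 j).2 - (lv x 0 0 0 0).2 := by
    simp only [eventually_all, eventually_imp_distrib_left]
    intro j h0 h6
    apply ev_pos
    · have c1 := cont_lv 0 0 0 j
      have c2 := cont_lv 0 0 0 0
      fun_prop
    · rw [e _ (by omega), e _ (by omega)]
      fin_cases j <;> simp [st] at h0 h6 ⊢ <;> norm_num
  have h4 : ∀ᶠ x in 𝓝 x0, ∀ j : Fin 7, 0 < j → j < 6 → 0 < X2 (uL x.2.2) (lv x 0 0 0 j) := by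
    simp only [eventually_all, eventually_imp_distrib_left]
    intro j h0 h6
    apply ev_pos
    · have c1 := cont_lv 0 0 0 j
      unfold X2 uL
      fun_prop
    · rw [e _ (by omega), hx]
      fin_cases j <;> simp [st, X2, uL] at h0 h6 ⊢ <;> norm_num
  have h5 : ∀ᶠ x in 𝓝 x0, ∀ j : Fin 7, 0 < j → j < 6 → 0 < X2 (lv x 0 0 0 j) (uR x.2.2) := by
    simp only [eventually_all, eventually_imp_distrib_left]
    intro j h0 h6
    apply ev_pos
    · have c1 := cont_lv 0 0 0 j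
      unfold X2 uR
      fun_prop
    · rw [e _ (by omega), hx]
      fin_cases j <;> simp [st, X2, uR] at h0 h6 ⊢ <;> norm_num
  have h6 : ∀ᶠ x in 𝓝 x0, ∀ i j : Fin 7, 0 < i → i < j → j < 6 →
      0 < X2 (lv x 0 0 0 i) (lv x 0 0 0 j) := by
    simp only [eventually_all, eventually_imp_distrib_left]
    intro i j h0 hij h6
    apply ev_pos
    · have c1 := cont_lv 0 0 0 j
      have c2 := cont_lv 0 0 0 i
      unfold X2
      fun_prop
    · rw [e _ (by omega), e _ (by omega)]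
      fin_cases j <;> fin_cases i <;> simp [st, X2] at h0 h6 hij ⊢ <;> norm_num
  have h7 : ∀ᶠ x in 𝓝 x0, 0 < (lv x 0 0 0 0).1 - (lv x 0 0 0 1).1 := by
    apply ev_pos
    · have c1 := cont_lv 0 0 0 0
      have c2 := cont_lv 0 0 0 1
      fun_prop
    · rw [e _ (by omega), e _ (by omega)]
      simp [st]
  have h8 : ∀ᶠ x in 𝓝 x0, 0 < (lv x 0 0 0 5).1 - (lv x 0 0 0 6).1 := by
    apply ev_pos
    · have c1 := cont_lv 0 0 0 5
      have c2 := cont_lv 0 0 0 6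
      fun_prop
    · rw [e _ (by omega), e _ (by omega)]
      simp [st]
  have h9 : ∀ᶠ x in 𝓝 x0, ∀ i : Fin 7, 0 < i → i < 5 →
      0 < X2 (lv x 0 0 0 i) (lv x 0 0 0 (i + 1)) +
        1 / 4 * ((lv x 0 0 0 i).1 - (lv x 0 0 0 (i + 1)).1) := by
    simp only [eventually_all, eventually_imp_distrib_left]
    intro i h0 h5
    apply ev_pos
    · have c1 := cont_lv 0 0 0 i
      have c2 := cont_lv 0 0 0 (i + 1)
      unfold X2
      fun_prop
    · rw [e _ (by omega), e _ (by omega)]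
      fin_cases i <;> simp [st, X2] at h0 h5 ⊢ <;> norm_num
  have h10 : ∀ᶠ x : XX in 𝓝 x0, 0 < x.2.2 - 3 / 4 := by
    apply ev_pos
    · fun_prop
    · rw [hx]; norm_num
  have h11 : ∀ᶠ x : XX in 𝓝 x0, 0 < 1 / 4 - x.2.1 := by
    apply ev_pos
    · fun_prop
    · have : x0.2.1 = 0 := rfl
      rw [this]; norm_num
  filter_upwards [h1, h2, h3, h4, h5, h6, h7, h8, h9, h10, h11] with x h1 h2 h3 h4 h5 h6 h7 h8 h9
    h10 h11
  exact ⟨h1, h2, h3, h4, h5, h6, h7, h8, h9, h10, h11⟩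

end Pool.Agent.EqTiling
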