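import Pool.Agent.EqTiling.Cover

set_option autoImplicit false
set_option linter.unusedSimpArgs false
set_option linter.unusedSectionVars false

namespace Pool.Agent.EqTiling

open Set MeasureTheory Filter Topology

variable {m : ℕ} [NeZero m] {x : XX} {s : ℝ}

lemma dist_ee (j : ZMod (4 * m)) (a b : ℂ) : dist (ee j * a) (ee j * b) = dist a b := by
  rw [dist_eq_norm, dist_eq_norm, ← mul_sub, norm_mul, norm_ee, one_mul]

lemma dist_toC (h : Par m x s) (p q : ℝ × ℝ) : dist (toC s p) (toC s q) = L x.2.2 p q := by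
  rw [Complex.dist_eq_re_im]
  unfold toC L
  simp only
  congr 1
  rw [← h.cs]
  ring

lemma crs_ee (j : ZMod (4 * m)) (a b : ℂ) : crs (ee j * a) (ee j * b) = crs a b := by
  have h := normSq_ee j
  simp only [crs, Complex.mul_re, Complex.mul_im]
  linear_combination (a.re * b.im - a.im * b.re) * h

lemma crs_toC (s : ℝ) (p q : ℝ × ℝ) : crs (toC s p) (toC s q) = s * X2 p q := by
  unfold crs toC X2
  simp only
  ring

lemma L_zero_R (c : ℝ) (R : ℝ) (hR : 0 ≤ R) (q : ℝ × ℝ)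
    (hq : q.1 ^ 2 = R ^ 2 * (2 * c) ^ 2 ∧ q.2 ^ 2 = R ^ 2 * (2 * c ^ 2 - 1) ^ 2) :
    L c q (0, 0) = R ∧ L c (0, 0) q = R := by
  have e : (1 - c ^ 2) * q.1 ^ 2 + q.2 ^ 2 = R ^ 2 := by
    rw [hq.1, hq.2]; ring
  unfold L
  constructor
  · simp only [zero_sub, even_two, Even.neg_pow]
    rw [e, Real.sqrt_sq hR]
  · simp only [sub_zero]
    rw [e, Real.sqrt_sq hR]

theorem perimeter_VX (h : Par m x s) (i : Tl m) :
    ∑ k ∈ Finset.range (NN i), dist (VX m x s i k) (VX m x s i (k + 1)) = 6 := by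
  have e : ∀ k, dist (VX m x s i k) (VX m x s i (k + 1)) =
      L x.2.2 (lv x (cls i.1) i.2.1 i.2.2 k) (lv x (cls i.1) i.2.1 i.2.2 (k + 1)) := by
    intro k
    unfold VX
    rw [dist_ee, dist_toC h]
  simp only [e]
  have hp := per_eq x h.eqs (cls i.1) i.2.1 i.2.2
  by_cases hW : IsW i
  · rw [NN_W hW]
    rw [if_pos (show cls i.1 = 0 ∧ i.2.1 = 0 ∧ i.2.2 = 0 from hW)] at hp
    rw [Finset.sum_range_succ, Finset.sum_range_succ]
    unfold per at hp
    rw [hp]
    obtain ⟨h1, h2, h3⟩ := hW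
    rw [h1, h2, h3]
    have h7 : lv x 0 0 0 7 = (0, 0) := rfl
    have h8 : lv x 0 0 0 8 = lv x 0 0 0 0 := rfl
    rw [show 6 + 1 = 7 from rfl, show 7 + 1 = 8 from rfl, h7, h8, lvW0, lvW6]
    rw [(L_zero_R x.2.2 x.2.1 h.hR.le _ ⟨by simp only [uR]; ring, by simp only [uR]; ring⟩).1,
      (L_zero_R x.2.2 x.2.1 h.hR.le _ ⟨by simp only [uL]; ring, by simp only [uL]; ring⟩).2]
    ring
  · rw [NN_H hW]
    have hW' : ¬ (cls i.1 = 0 ∧ i.2.1 = 0 ∧ i.2.2 = 0) := hW
    rw [if_neg hW'] at hp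
    exact hp

theorem shoelace_VX (h : Par m x s) (i : Tl m) :
    ∑ k ∈ Finset.range (NN i), crs (VX m x s i k) (VX m x s i (k + 1)) =
      s * (4 + 4 * x.2.2) := by
  have e : ∀ k, crs (VX m x s i k) (VX m x s i (k + 1)) =
      s * X2 (lv x (cls i.1) i.2.1 i.2.2 k) (lv x (cls i.1) i.2.1 i.2.2 (k + 1)) := by
    intro k
    unfold VX
    rw [crs_ee, crs_toC]
  simp only [e]
  rw [← Finset.mul_sum]
  congr 1
  have hp := ar_eq x h.eqs (cls i.1) i.2.1 i.2.2
  by_cases hW : IsW i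
  · rw [NN_W hW]
    rw [Finset.sum_range_succ, Finset.sum_range_succ]
    unfold ar at hp
    rw [hp]
    obtain ⟨h1, h2, h3⟩ := hW
    rw [h1, h2, h3]
    have h7 : lv x 0 0 0 7 = (0, 0) := rfl
    rw [show 6 + 1 = 7 from rfl, h7]
    simp [X2]
  · rw [NN_H hW]
    exact hp

theorem volume_VX (h : Par m x s) (i : Tl m) :
    volume (body (NN (m := m)) (VX m x s) i) = ENNReal.ofReal (s * (2 + 2 * x.2.2)) := by
  have hM := matched h
  unfold body
  rw [(hM.ccw i).volume_hull (hM.three i) (hM.closed i), shoelace_VX h i]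
  congr 1
  ring

/-- Existence of the parameters. -/
theorem exists_par (k : ℕ) : ∃ m : ℕ, k ≤ m ∧ 2 ≤ m ∧ ∃ (x : XX) (s : ℝ), Par m x s := by
  obtain ⟨ε, hε, hsol⟩ := exists_sol good_ev
  obtain ⟨M, hM⟩ := exists_nat_gt (Real.pi / (2 * ε))
  set m := max (max k 2) M with hm
  have hk : k ≤ m := by omega
  have h2 : 2 ≤ m := by omega
  have hMm : M ≤ m := by omega
  refine ⟨m, hk, h2, ?_⟩
  set t := Real.pi / (2 * m) with ht
  have hm2 : (2 : ℝ) ≤ m := by exact_mod_cast h2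
  have hm0 : (0 : ℝ) < m := by linarith
  have ht0 : 0 < t := by positivity
  have ht1 : t < 1 := by
    rw [ht, div_lt_one (by positivity)]
    have := Real.pi_lt_four
    linarith
  have htε : t < ε := by
    have h3 : Real.pi / (2 * ε) < m := hM.trans_le (by exact_mod_cast hMm)
    rw [div_lt_iff₀ (by positivity)] at h3
    rw [ht, div_lt_iff₀ (by positivity)]
    linarith
  have hc1 : |Real.cos t - 1| < ε := by
    have h3 := Real.one_sub_sq_div_two_le_cos (x := t)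
    have h4 := Real.cos_le_one t
    rw [abs_lt]
    constructor
    · nlinarith
    · linarith
  obtain ⟨z, hz, hgood⟩ := hsol (ε / 2) (Real.cos t) (by rw [abs_of_pos (by linarith)]; linarith) hc1
  exact ⟨(z, ε / 2, Real.cos t), Real.sin t, h2, rfl, rfl, by show 0 < ε / 2; linarith, hgood, hz⟩

end Pool.Agent.EqTiling
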