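import Mathlib

namespace Pool.Agent.EqTiling

open Set MeasureTheory

/-- Twice the signed area of the triangle `a b c`. -/
def ori (a b c : ℂ) : ℝ := (b - a).re * (c - a).im - (b - a).im * (c - a).re

lemma ori_rot (a b c : ℂ) : ori a b c = ori b c a := by
  simp only [ori, Complex.sub_re, Complex.sub_im]; ring

lemma ori_swap (a b c : ℂ) : ori b a c = - ori a b c := by
  simp only [ori, Complex.sub_re, Complex.sub_im]; ring

lemma ori_self_left (a b : ℂ) : ori a b a = 0 := by
  simp only [ori, Complex.sub_re, Complex.sub_im]; ring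

lemma ori_self_right (a b : ℂ) : ori a b b = 0 := by
  simp only [ori, Complex.sub_re, Complex.sub_im]; ring

lemma continuous_ori (a b : ℂ) : Continuous (ori a b) := by
  unfold ori
  fun_prop

/-- affine in the last variable -/
lemma ori_comb (a b p q : ℂ) (s t : ℝ) (h : s + t = 1) :
    ori a b (s • p + t • q) = s * ori a b p + t * ori a b q := by
  have hs : s = 1 - t := by linarith
  subst hs
  simp only [ori, Complex.sub_re, Complex.sub_im, Complex.add_re, Complex.add_im,
    Complex.real_smul, Complex.mul_re, Complex.mul_im, Complex.ofReal_re, Complex.ofReal_im]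
  ring

lemma convex_ori_nonneg (a b : ℂ) : Convex ℝ {x | 0 ≤ ori a b x} := by
  intro p hp q hq s t hs ht hst
  simp only [mem_ofPred_eq] at *
  rw [ori_comb _ _ _ _ _ _ hst]
  positivity

/-- `v 0, …, v (n-1)` are in strictly convex position, counterclockwise. -/
def CCW (n : ℕ) (v : ℕ → ℂ) : Prop :=
  ∀ i j k, i < j → j < k → k < n → 0 < ori (v i) (v j) (v k)

lemma CCW.mono {n m : ℕ} {v : ℕ → ℂ} (h : CCW n v) (hm : m ≤ n) : CCW m v :=
  fun i j k hij hjk hk => h i j k hij hjk (hk.trans_le hm)

lemma CCW.edge_pos {n : ℕ} {v : ℕ → ℂ} (h : CCW n v) (hc : v n = v 0) {k j : ℕ}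
    (hk : k < n) (hj : j < n) (h1 : j ≠ k) (h2 : j ≠ k + 1) (h3 : ¬ (k + 1 = n ∧ j = 0)) :
    0 < ori (v k) (v (k + 1)) (v j) := by
  rcases Nat.lt_or_ge (k + 1) n with hk1 | hk1
  · rcases lt_or_gt_of_ne h1 with hjk | hjk
    · rw [← ori_rot]
      exact h j k (k + 1) hjk (Nat.lt_succ_self k) hk1
    · exact h k (k + 1) j (Nat.lt_succ_self k) (by omega) hj
  · have hkn : k + 1 = n := by omega
    rw [hkn, hc, ori_rot]
    have hj0 : 0 < j := Nat.pos_of_ne_zero (fun h0 => h3 ⟨hkn, h0⟩)
    exact h 0 j k hj0 (by omega) hk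

/-- The vertices before and after. -/
lemma CCW.corner {n : ℕ} {v : ℕ → ℂ} (hn : 3 ≤ n) (h : CCW n v) (hc : v n = v 0) {k : ℕ}
    (hk : k < n) : ∃ l < n, v (l + 1) = v k ∧ 0 < ori (v k) (v (k + 1)) (v l) := by
  rcases Nat.eq_zero_or_pos k with rfl | hk0
  · refine ⟨n - 1, by omega, ?_, ?_⟩
    · rw [show n - 1 + 1 = n by omega, hc]
    · exact h.edge_pos hc (by omega) (by omega) (by omega) (by omega) (by omega)
  · refine ⟨k - 1, by omega, ?_, ?_⟩
    · rw [show k - 1 + 1 = k by omega]
    · exact h.edge_pos hc (by omega) (by omega) (by omega) (by omega) (by omega)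

/-- A point satisfying all edge inequalities lies in the convex hull, and conversely. -/
theorem CCW.mem_hull_iff {n : ℕ} {v : ℕ → ℂ} (hn : 3 ≤ n) (h : CCW n v) (hc : v n = v 0)
    (x : ℂ) : x ∈ convexHull ℝ (v '' Iio n) ↔ ∀ k < n, 0 ≤ ori (v k) (v (k + 1)) x := by
  constructor
  · intro hx k hk
    have hsub : convexHull ℝ (v '' Iio n) ⊆ {x | 0 ≤ ori (v k) (v (k + 1)) x} := by
      refine convexHull_min ?_ (convex_ori_nonneg _ _)
      rintro _ ⟨j, hj, rfl⟩
      simp only [mem_Iio] at hj
      simp only [mem_ofPred_eq]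
      by_cases h1 : j = k
      · rw [h1, ori_self_left]
      by_cases h2 : j = k + 1
      · rw [h2, ori_self_right]
      by_cases h3 : k + 1 = n ∧ j = 0
      · rw [h3.1, hc, h3.2, ori_self_right]
      exact (h.edge_pos hc hk hj h1 h2 h3).le
    exact hsub hx
  · intro hx
    by_contra hnot
    have hfin : (v '' Iio n).Finite := (finite_Iio n).image v
    obtain ⟨f, u, hfu, hux⟩ := geometric_hahn_banach_closed_point (convex_convexHull ℝ _)
      (hfin.isCompact_convexHull ℝ).isClosed hnot
    obtain ⟨k, hk, hmax⟩ := Finset.exists_max_image (Finset.range n) (fun k => f (v k))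
      ⟨0, by simp; omega⟩
    rw [Finset.mem_range] at hk
    obtain ⟨l, hl, hlk, hpos⟩ := h.corner hn hc hk
    have hmem : ∀ j < n, v j ∈ convexHull ℝ (v '' Iio n) := fun j hj =>
      subset_convexHull ℝ _ ⟨j, hj, rfl⟩
    have hfk : f (v k) < u := hfu _ (hmem k hk)
    have hfl : f (v l) ≤ f (v k) := hmax l (by simpa using hl)
    have hfk1 : f (v (k + 1)) ≤ f (v k) := by
      rcases Nat.lt_or_ge (k + 1) n with h1 | h1
      · exact hmax (k + 1) (by simpa using h1)
      · rw [show k + 1 = n by omega, hc]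
        exact hmax 0 (by simp; omega)
    have hx1 := hx k hk
    have hx2 := hx l hl
    rw [hlk] at hx2
    set o := v k
    set a := v (k + 1)
    set b := v l
    have hid : ori o a b • (x - o) = ori b o x • (a - o) + ori o a x • (b - o) := by
      apply Complex.ext <;>
      simp only [ori, Complex.sub_re, Complex.sub_im, Complex.add_re, Complex.add_im,
        Complex.real_smul, Complex.mul_re, Complex.mul_im, Complex.ofReal_re,
        Complex.ofReal_im] <;> ring
    have hf := congrArg f hid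
    simp only [map_add, map_smul, map_sub, smul_eq_mul] at hf
    have h1 : ori b o x * (f a - f o) ≤ 0 := mul_nonpos_of_nonneg_of_nonpos hx2 (by linarith)
    have h2 : ori o a x * (f b - f o) ≤ 0 := mul_nonpos_of_nonneg_of_nonpos hx1 (by linarith)
    have h3 : 0 < ori o a b * (f x - f o) := mul_pos hpos (by linarith)
    linarith

/-- A boundary point which is not a vertex lies in the relative interior of one edge. -/
theorem CCW.edge_point {n : ℕ} {v : ℕ → ℂ} (hn : 3 ≤ n) (h : CCW n v) (hc : v n = v 0)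
    {x : ℂ} (hx : ∀ k < n, 0 ≤ ori (v k) (v (k + 1)) x) (hv : ∀ k < n, x ≠ v k) {k : ℕ}
    (hk : k < n) (h0 : ori (v k) (v (k + 1)) x = 0) :
    ∃ t : ℝ, 0 < t ∧ t < 1 ∧ x = (1 - t) • v k + t • v (k + 1) := by
  -- the next corner
  obtain ⟨l, hl, hlk, hpos⟩ := h.corner hn hc hk
  have hk1 : ∃ q < n, v q = v (k + 1) ∧ (0 < ori (v q) (v (q + 1)) (v k)) := by
    rcases Nat.lt_or_ge (k + 1) n with h1 | h1
    · exact ⟨k + 1, h1, rfl, h.edge_pos hc h1 hk (by omega) (by omega) (by omega)⟩
    · refine ⟨0, by omega, ?_, ?_⟩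
      · rw [show k + 1 = n by omega, hc]
      · exact h.edge_pos hc (by omega) hk (by omega) (by omega) (by omega)
  obtain ⟨q, hq, hqk, hqpos⟩ := hk1
  have hxl := hx l hl
  have hxq := hx q hq
  rw [hlk] at hxl
  rw [hqk] at hqpos hxq
  have hxk : x ≠ v k := hv k hk
  have hxk1 : x ≠ v (k + 1) := by rw [← hqk]; exact hv q hq
  set o := v k
  set a := v (k + 1)
  set b := v l
  set c := v (q + 1)
  -- ori o a b > 0, ori a c o > 0, ori b o x ≥ 0, ori a c x ≥ 0, ori o a x = 0
  set D := ori o a b with hD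
  set t : ℝ := ori b o x / D with ht
  have hDne : D ≠ 0 := hpos.ne'
  have hid : D • (x - o) = ori b o x • (a - o) + ori o a x • (b - o) := by
    rw [hD]
    apply Complex.ext <;>
    simp only [ori, Complex.sub_re, Complex.sub_im, Complex.add_re, Complex.add_im,
      Complex.real_smul, Complex.mul_re, Complex.mul_im, Complex.ofReal_re,
      Complex.ofReal_im] <;> ring
  rw [h0, zero_smul, add_zero] at hid
  have hxo : x = (1 - t) • o + t • a := by
    have : x - o = t • (a - o) := by
      rw [ht, div_eq_inv_mul, mul_smul, ← hid, smul_smul, inv_mul_cancel₀ hDne, one_smul]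
    rw [sub_smul, one_smul, sub_add, ← smul_sub]
    have h2 : x = o + t • (a - o) := by rw [← this]; ring
    rw [h2]
    rw [← neg_sub a o, smul_neg]
    ring
  have ht0 : 0 ≤ t := div_nonneg hxl hpos.le
  have ht1 : 0 ≤ 1 - t := by
    have h5 : ori a c x = (1 - t) * ori a c o + t * ori a c a := by
      conv_lhs => rw [hxo]
      exact ori_comb _ _ _ _ _ _ (by ring)
    rw [ori_self_left, mul_zero, add_zero] at h5
    rw [h5] at hxq
    exact nonneg_of_mul_nonneg_left hxq hqpos
  refine ⟨t, lt_of_le_of_ne ht0 ?_, ?_, hxo⟩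
  · intro h6
    apply hxk
    rw [hxo, ← h6]; simp
  · refine lt_of_le_of_ne (by linarith) ?_
    intro h6
    apply hxk1
    rw [hxo, h6]; simp

/-- On the relative interior of an edge all other edge inequalities are strict. -/
theorem CCW.edge_strict {n : ℕ} {v : ℕ → ℂ} (hn : 3 ≤ n) (h : CCW n v) (hc : v n = v 0)
    {x : ℂ} {k : ℕ} (hk : k < n) {t : ℝ} (ht0 : 0 < t) (ht1 : t < 1)
    (hx : x = (1 - t) • v k + t • v (k + 1)) {j : ℕ} (hj : j < n) (hjk : j ≠ k) :
    0 < ori (v j) (v (j + 1)) x := by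
  have hnn : ∀ i < n, 0 ≤ ori (v j) (v (j + 1)) (v i) := by
    intro i hi
    by_cases h1 : i = j
    · rw [h1, ori_self_left]
    by_cases h2 : i = j + 1
    · rw [h2, ori_self_right]
    by_cases h3 : j + 1 = n ∧ i = 0
    · rw [h3.1, hc, h3.2, ori_self_right]
    exact (h.edge_pos hc hj hi h1 h2 h3).le
  have hnn' : 0 ≤ ori (v j) (v (j + 1)) (v (k + 1)) := by
    rcases Nat.lt_or_ge (k + 1) n with h1 | h1
    · exact hnn _ h1
    · rw [show k + 1 = n by omega, hc]; exact hnn 0 (by omega)
  rw [hx, ori_comb _ _ _ _ _ _ (by ring)]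
  by_cases h2 : k = j + 1 ∨ (j + 1 = n ∧ k = 0)
  · -- v k is an endpoint of edge j; then v (k+1) is not
    have h3 : 0 < ori (v j) (v (j + 1)) (v (k + 1)) := by
      rcases Nat.lt_or_ge (k + 1) n with h1 | h1
      · rcases h2 with h2 | h2
        · exact h.edge_pos hc hj h1 (by omega) (by omega) (by omega)
        · exact h.edge_pos hc hj h1 (by omega) (by omega) (by omega)
      · rw [show k + 1 = n by omega, hc]
        rcases h2 with h2 | h2
        · exact h.edge_pos hc hj (by omega) (by omega) (by omega) (by omega)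
        · omega
    have h4 : 0 ≤ ori (v j) (v (j + 1)) (v k) := hnn k hk
    have := mul_pos ht0 h3
    have := mul_nonneg (by linarith : (0:ℝ) ≤ 1 - t) h4
    linarith
  · have h3 : 0 < ori (v j) (v (j + 1)) (v k) :=
      h.edge_pos hc hj hk (Ne.symm hjk) (fun h => h2 (Or.inl h)) (fun h => h2 (Or.inr h))
    have := mul_pos (by linarith : (0:ℝ) < 1 - t) h3
    have := mul_nonneg ht0.le hnn'
    linarith

end Pool.Agent.EqTiling
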