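import Pool.Agent.EqTiling.Data

set_option autoImplicit false
set_option linter.unusedSimpArgs false

namespace Pool.Agent.EqTiling

open Filter Topology

lemma cd_bet (cl : Fin 4) (a b : ℕ) : ContDiff ℝ 1 (fun x => bet x cl a b) := by
  unfold bet
  split <;> (try unfold bf) <;> fun_prop

lemma cd_tau (cl : Fin 4) (a b : ℕ) : ContDiff ℝ 1 (fun x => tau x cl a b) := by
  unfold tau
  split <;> (try unfold bf) <;> fun_prop

lemma cd_rotM {f : XX → ℝ × ℝ} (hf : ContDiff ℝ 1 f) :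
    ContDiff ℝ 1 (fun x => rotM x.2.2 (f x)) := by
  unfold rotM
  fun_prop

lemma cd_rotP {f : XX → ℝ × ℝ} (hf : ContDiff ℝ 1 f) :
    ContDiff ℝ 1 (fun x => rotP x.2.2 (f x)) := by
  unfold rotP
  fun_prop

lemma cd_lv0 (cl : Fin 4) (a b : ℕ) : ContDiff ℝ 1 (fun x => lv0 x cl a b) := by
  unfold lv0
  split
  · exact cd_rotM (cd_rotM (cd_bet 2 0 0))
  · exact cd_bet _ _ _

lemma cd_lv6 (cl : Fin 4) (a b : ℕ) : ContDiff ℝ 1 (fun x => lv6 x cl a b) := by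
  unfold lv6
  split
  · exact cd_rotP (cd_rotP (cd_bet 2 0 0))
  · exact cd_bet _ _ _

lemma cd_lv1 (cl : Fin 4) (a b : ℕ) : ContDiff ℝ 1 (fun x => lv1 x cl a b) := by
  unfold lv1
  split
  · exact cd_rotM (cd_bet _ _ _)
  · exact cd_tau _ _ _

lemma cd_lv5 (cl : Fin 4) (a b : ℕ) : ContDiff ℝ 1 (fun x => lv5 x cl a b) := by
  unfold lv5
  split
  · exact cd_rotP (cd_bet _ _ _)
  · exact cd_tau _ _ _

lemma cd_lv (cl : Fin 4) (a b k : ℕ) : ContDiff ℝ 1 (fun x => lv x cl a b k) := by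
  unfold lv
  split
  · exact cd_lv0 _ _ _
  · exact cd_lv1 _ _ _
  · exact cd_bet _ _ _
  · exact cd_tau _ _ _
  · exact cd_bet _ _ _
  · exact cd_lv5 _ _ _
  · exact cd_lv6 _ _ _
  · exact contDiff_const
  · exact cd_lv0 _ _ _

lemma cdL {f g : XX → ℝ × ℝ} (hf : ContDiff ℝ 1 f) (hg : ContDiff ℝ 1 g)
    (hne : (g x0).2 ≠ (f x0).2) : ContDiffAt ℝ 1 (fun x : XX => L x.2.2 (f x) (g x)) x0 := by
  unfold L
  apply ContDiffAt.sqrt
  · apply ContDiff.contDiffAt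
    fun_prop
  · have h1 : x0.2.2 = 1 := rfl
    rw [h1]
    have : (g x0).2 - (f x0).2 ≠ 0 := sub_ne_zero.mpr hne
    norm_num
    exact this

lemma cd_per (cl : Fin 4) (a b : ℕ) : ContDiffAt ℝ 1 (fun x => per x cl a b) x0 := by
  unfold per
  apply ContDiffAt.sum
  intro k hk
  rw [Finset.mem_range] at hk
  apply cdL (cd_lv _ _ _ _) (cd_lv _ _ _ _)
  rw [lv_x0 _ _ _ _ (by omega), lv_x0 _ _ _ _ (by omega)]
  interval_cases k <;> simp [st]

lemma cd_ar (cl : Fin 4) (a b : ℕ) : ContDiff ℝ 1 (fun x => ar x cl a b) := by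
  unfold ar X2
  apply ContDiff.sum
  intro k hk
  have h1 := cd_lv cl a b k
  have h2 := cd_lv cl a b (k+1)
  fun_prop

lemma cd_GG : ContDiffAt ℝ 1 GG x0 := by
  have h1 := fun cl a b => cd_per cl a b
  have h2 := fun cl a b => (cd_ar cl a b).contDiffAt (x := x0)
  have hR : ContDiffAt ℝ 1 (fun x : XX => x.2.1) x0 := by fun_prop
  have hc : ContDiffAt ℝ 1 (fun x : XX => x.2.2) x0 := by fun_prop
  rw [contDiffAt_pi]
  intro i
  fin_cases i
  · exact ((h1 _ _ _).add (contDiffAt_const.mul hR)).sub contDiffAt_const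
  · exact (h1 _ _ _).sub contDiffAt_const
  · exact (h1 _ _ _).sub contDiffAt_const
  · exact (h1 _ _ _).sub contDiffAt_const
  · exact (h1 _ _ _).sub contDiffAt_const
  · exact (h1 _ _ _).sub contDiffAt_const
  · exact (h1 _ _ _).sub contDiffAt_const
  · exact (h2 _ _ _).sub (contDiffAt_const.add (contDiffAt_const.mul hc))
  · exact (h2 _ _ _).sub (contDiffAt_const.add (contDiffAt_const.mul hc))
  · exact (h2 _ _ _).sub (contDiffAt_const.add (contDiffAt_const.mul hc))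
  · exact (h2 _ _ _).sub (contDiffAt_const.add (contDiffAt_const.mul hc))
  · exact (h2 _ _ _).sub (contDiffAt_const.add (contDiffAt_const.mul hc))
  · exact (h2 _ _ _).sub (contDiffAt_const.add (contDiffAt_const.mul hc))


/-- the line through the base point -/
noncomputable def gam (d : E13) (s : ℝ) : XX := (z0 + s • d, 0, 1)

lemma gam_zero (d : E13) : gam d 0 = x0 := by simp [gam, x0]

lemma cont_gam (d : E13) : Continuous (gam d) := by unfold gam; fun_prop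

lemma gam_c (d : E13) (s : ℝ) : (gam d s).2.2 = 1 := rfl

lemma gam_R (d : E13) (s : ℝ) : (gam d s).2.1 = 0 := rfl

lemma hasDeriv_of_quad {f : ℝ → ℝ} {b c : ℝ} (h : ∀ᶠ s in 𝓝 (0 : ℝ), f s = s * b + s ^ 2 * c) :
    HasDerivAt f b 0 := by
  have h1 : HasDerivAt (fun s : ℝ => s * b + s ^ 2 * c) (1 * b + ((2 : ℕ) * (0 : ℝ) ^ (2 - 1)) * c) 0 :=
    ((hasDerivAt_id (0 : ℝ)).mul_const b).add ((hasDerivAt_pow 2 (0 : ℝ)).mul_const c)
  have h2 : HasDerivAt (fun s : ℝ => s * b + s ^ 2 * c) b 0 := by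
    convert h1 using 1
    norm_num
  exact h2.congr_of_eventuallyEq h

lemma L_one (p q : ℝ × ℝ) : L 1 p q = |q.2 - p.2| := by
  unfold L
  simp [Real.sqrt_sq_eq_abs]

lemma per_near (d : E13) (cl : Fin 4) (a b : ℕ) : ∀ᶠ s in 𝓝 (0 : ℝ),
    per (gam d s) cl a b = 2 * (lv (gam d s) cl a b 3).2 - (lv (gam d s) cl a b 0).2
      - (lv (gam d s) cl a b 6).2 := by
  have hc : ∀ k, Continuous fun s => (lv (gam d s) cl a b k).2 := fun k =>
    continuous_snd.comp ((cd_lv cl a b k).continuous.comp (cont_gam d))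
  have key : ∀ k l, (lv x0 cl a b k).2 < (lv x0 cl a b l).2 →
      ∀ᶠ s in 𝓝 (0 : ℝ), (lv (gam d s) cl a b k).2 < (lv (gam d s) cl a b l).2 := by
    intro k l h
    apply (hc k).continuousAt.eventually_lt (hc l).continuousAt
    rw [gam_zero]; exact h
  have e : ∀ k, k ≤ 6 → (lv x0 cl a b k).2 = (bf 1 cl a b).2 + (st 1 k).2 := fun k hk => by
    rw [lv_x0 _ _ _ _ hk]; rfl
  have h01 := key 0 1 (by rw [e 0 (by omega), e 1 (by omega)]; simp [st])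
  have h12 := key 1 2 (by rw [e 1 (by omega), e 2 (by omega)]; simp [st])
  have h23 := key 2 3 (by rw [e 2 (by omega), e 3 (by omega)]; simp [st])
  have h34 := key 4 3 (by rw [e 3 (by omega), e 4 (by omega)]; simp [st])
  have h45 := key 5 4 (by rw [e 4 (by omega), e 5 (by omega)]; simp [st])
  have h56 := key 6 5 (by rw [e 5 (by omega), e 6 (by omega)]; simp [st])
  filter_upwards [h01, h12, h23, h34, h45, h56] with s h01 h12 h23 h34 h45 h56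
  unfold per
  simp only [gam_c, L_one, Finset.sum_range_succ, Finset.sum_range_zero, zero_add, Nat.reduceAdd]
  rw [abs_of_pos (by linarith), abs_of_pos (by linarith), abs_of_pos (by linarith),
    abs_of_neg (by linarith), abs_of_neg (by linarith), abs_of_neg (by linarith)]
  ring

/-- linearization in the unknowns -/
def Lin (d : E13) : E13 :=
  ![2 * d 0, 2 * d 1, 2 * d 12 - 2 * d 6, -2 * d 3, -2 * d 4, -2 * d 10, -2 * d 8,
    -d 0 + d 10 - 2 * d 3 + 2 * d 9,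
    -2 * d 10 + 2 * d 11 - d 12,
    -2 * d 11 - d 12 - 2 * d 8,
    -d 1 - 2 * d 4 - 2 * d 7 + d 8,
    d 10 + 2 * d 12 - 2 * d 2 + d 3 + d 4 - 2 * d 6 + 2 * d 7 + d 8 - 2 * d 9,
    2 * d 0 + 4 * d 2 + 2 * d 3 + 4 * d 5 + 2 * d 6]

lemma pred0 : (0 : Fin 4) - 1 = 3 := rfl
lemma pred1 : (1 : Fin 4) - 1 = 0 := rfl
lemma pred2 : (2 : Fin 4) - 1 = 1 := rfl
lemma pred3 : (3 : Fin 4) - 1 = 2 := rfl
lemma succ0 : (0 : Fin 4) + 1 = 1 := rfl
lemma succ1 : (1 : Fin 4) + 1 = 2 := rfl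
lemma succ2 : (2 : Fin 4) + 1 = 3 := rfl
lemma succ3 : (3 : Fin 4) + 1 = 0 := rfl

lemma neg1 : (-1 : Fin 4) = 3 := rfl
lemma z0_0 : z0 0 = 3 := rfl
lemma z0_1 : z0 1 = 3 := rfl
lemma z0_2 : z0 2 = 1 := rfl
lemma z0_3 : z0 3 = 2 := rfl
lemma z0_4 : z0 4 = 2 := rfl
lemma z0_5 : z0 5 = 0 := rfl
lemma z0_6 : z0 6 = 1 := rfl
lemma z0_7 : z0 7 = 1 := rfl
lemma z0_8 : z0 8 = 3 := rfl
lemma z0_9 : z0 9 = -1 := rfl
lemma z0_10 : z0 10 = 3 := rfl
lemma z0_11 : z0 11 = 0 := rfl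
lemma z0_12 : z0 12 = 4 := rfl

lemma dG0 (d : E13) : HasDerivAt (fun s => per (gam d s) 0 0 0 + 2 * (gam d s).2.1 - 6) (2 * d 0) 0 := by
  apply hasDeriv_of_quad (c := 0)
  filter_upwards [per_near d 0 0 0] with s hs
  rw [hs]
  simp [lv, lv0, lv1, lv5, lv6, bet, tau, bf, od, rotM, rotP,
    neg1, pred0, succ0, pred1, succ1, pred2, succ2, pred3, succ3, gam, z0_0, z0_1, z0_2, z0_3, z0_4, z0_5,
    z0_6, z0_7, z0_8, z0_9, z0_10, z0_11, z0_12]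
  ring

lemma dG1 (d : E13) : HasDerivAt (fun s => per (gam d s) 2 0 0 - 6) (2 * d 1) 0 := by
  apply hasDeriv_of_quad (c := 0)
  filter_upwards [per_near d 2 0 0] with s hs
  rw [hs]
  simp [lv, lv0, lv1, lv5, lv6, bet, tau, bf, od, rotM, rotP,
    neg1, pred0, succ0, pred1, succ1, pred2, succ2, pred3, succ3, gam, z0_0, z0_1, z0_2, z0_3, z0_4, z0_5,
    z0_6, z0_7, z0_8, z0_9, z0_10, z0_11, z0_12]
  ring

lemma dG2 (d : E13) : HasDerivAt (fun s => per (gam d s) 1 0 0 - 6) (2 * d 12 - 2 * d 6) 0 := by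
  apply hasDeriv_of_quad (c := 0)
  filter_upwards [per_near d 1 0 0] with s hs
  rw [hs]
  simp [lv, lv0, lv1, lv5, lv6, bet, tau, bf, od, rotM, rotP,
    neg1, pred0, succ0, pred1, succ1, pred2, succ2, pred3, succ3, gam, z0_0, z0_1, z0_2, z0_3, z0_4, z0_5,
    z0_6, z0_7, z0_8, z0_9, z0_10, z0_11, z0_12]
  ring

lemma dG3 (d : E13) : HasDerivAt (fun s => per (gam d s) 0 0 1 - 6) (-2 * d 3) 0 := by
  apply hasDeriv_of_quad (c := 0)
  filter_upwards [per_near d 0 0 1] with s hs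
  rw [hs]
  simp [lv, lv0, lv1, lv5, lv6, bet, tau, bf, od, rotM, rotP,
    neg1, pred0, succ0, pred1, succ1, pred2, succ2, pred3, succ3, gam, z0_0, z0_1, z0_2, z0_3, z0_4, z0_5,
    z0_6, z0_7, z0_8, z0_9, z0_10, z0_11, z0_12]
  ring

lemma dG4 (d : E13) : HasDerivAt (fun s => per (gam d s) 2 1 0 - 6) (-2 * d 4) 0 := by
  apply hasDeriv_of_quad (c := 0)
  filter_upwards [per_near d 2 1 0] with s hs
  rw [hs]
  simp [lv, lv0, lv1, lv5, lv6, bet, tau, bf, od, rotM, rotP,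
    neg1, pred0, succ0, pred1, succ1, pred2, succ2, pred3, succ3, gam, z0_0, z0_1, z0_2, z0_3, z0_4, z0_5,
    z0_6, z0_7, z0_8, z0_9, z0_10, z0_11, z0_12]
  ring

lemma dG5 (d : E13) : HasDerivAt (fun s => per (gam d s) 1 1 0 - 6) (-2 * d 10) 0 := by
  apply hasDeriv_of_quad (c := 0)
  filter_upwards [per_near d 1 1 0] with s hs
  rw [hs]
  simp [lv, lv0, lv1, lv5, lv6, bet, tau, bf, od, rotM, rotP,
    neg1, pred0, succ0, pred1, succ1, pred2, succ2, pred3, succ3, gam, z0_0, z0_1, z0_2, z0_3, z0_4, z0_5,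
    z0_6, z0_7, z0_8, z0_9, z0_10, z0_11, z0_12]
  ring

lemma dG6 (d : E13) : HasDerivAt (fun s => per (gam d s) 1 0 1 - 6) (-2 * d 8) 0 := by
  apply hasDeriv_of_quad (c := 0)
  filter_upwards [per_near d 1 0 1] with s hs
  rw [hs]
  simp [lv, lv0, lv1, lv5, lv6, bet, tau, bf, od, rotM, rotP,
    neg1, pred0, succ0, pred1, succ1, pred2, succ2, pred3, succ3, gam, z0_0, z0_1, z0_2, z0_3, z0_4, z0_5,
    z0_6, z0_7, z0_8, z0_9, z0_10, z0_11, z0_12]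
  ring

lemma dG7 (d : E13) : HasDerivAt (fun s => ar (gam d s) 0 0 1 - (4 + 4 * (gam d s).2.2))
    (-d 0 + d 10 - 2 * d 3 + 2 * d 9) 0 := by
  apply hasDeriv_of_quad (c := ar (gam d 1) 0 0 1 - 8 - (-d 0 + d 10 - 2 * d 3 + 2 * d 9))
  filter_upwards with s
  simp [ar, X2, Finset.sum_range_succ, lv, lv0, lv1, lv5, lv6, bet, tau, bf, od, rotM, rotP,
    neg1, pred0, succ0, pred1, succ1, pred2, succ2, pred3, succ3, gam, z0_0, z0_1, z0_2, z0_3, z0_4, z0_5,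
    z0_6, z0_7, z0_8, z0_9, z0_10, z0_11, z0_12]
  ring

lemma dG8 (d : E13) : HasDerivAt (fun s => ar (gam d s) 1 1 0 - (4 + 4 * (gam d s).2.2))
    (-2 * d 10 + 2 * d 11 - d 12) 0 := by
  apply hasDeriv_of_quad (c := ar (gam d 1) 1 1 0 - 8 - (-2 * d 10 + 2 * d 11 - d 12))
  filter_upwards with s
  simp [ar, X2, Finset.sum_range_succ, lv, lv0, lv1, lv5, lv6, bet, tau, bf, od, rotM, rotP,
    neg1, pred0, succ0, pred1, succ1, pred2, succ2, pred3, succ3, gam, z0_0, z0_1, z0_2, z0_3, z0_4, z0_5,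
    z0_6, z0_7, z0_8, z0_9, z0_10, z0_11, z0_12]
  ring

lemma dG9 (d : E13) : HasDerivAt (fun s => ar (gam d s) 1 0 1 - (4 + 4 * (gam d s).2.2))
    (-2 * d 11 - d 12 - 2 * d 8) 0 := by
  apply hasDeriv_of_quad (c := ar (gam d 1) 1 0 1 - 8 - (-2 * d 11 - d 12 - 2 * d 8))
  filter_upwards with s
  simp [ar, X2, Finset.sum_range_succ, lv, lv0, lv1, lv5, lv6, bet, tau, bf, od, rotM, rotP,
    neg1, pred0, succ0, pred1, succ1, pred2, succ2, pred3, succ3, gam, z0_0, z0_1, z0_2, z0_3, z0_4, z0_5,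
    z0_6, z0_7, z0_8, z0_9, z0_10, z0_11, z0_12]
  ring

lemma dG10 (d : E13) : HasDerivAt (fun s => ar (gam d s) 2 1 0 - (4 + 4 * (gam d s).2.2))
    (-d 1 - 2 * d 4 - 2 * d 7 + d 8) 0 := by
  apply hasDeriv_of_quad (c := ar (gam d 1) 2 1 0 - 8 - (-d 1 - 2 * d 4 - 2 * d 7 + d 8))
  filter_upwards with s
  simp [ar, X2, Finset.sum_range_succ, lv, lv0, lv1, lv5, lv6, bet, tau, bf, od, rotM, rotP,
    neg1, pred0, succ0, pred1, succ1, pred2, succ2, pred3, succ3, gam, z0_0, z0_1, z0_2, z0_3, z0_4, z0_5,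
    z0_6, z0_7, z0_8, z0_9, z0_10, z0_11, z0_12]
  ring

lemma dG11 (d : E13) : HasDerivAt (fun s => ar (gam d s) 1 0 0 - (4 + 4 * (gam d s).2.2))
    (d 10 + 2 * d 12 - 2 * d 2 + d 3 + d 4 - 2 * d 6 + 2 * d 7 + d 8 - 2 * d 9) 0 := by
  apply hasDeriv_of_quad (c := ar (gam d 1) 1 0 0 - 8 - (d 10 + 2 * d 12 - 2 * d 2 + d 3 + d 4 - 2 * d 6 + 2 * d 7 + d 8 - 2 * d 9))
  filter_upwards with s
  simp [ar, X2, Finset.sum_range_succ, lv, lv0, lv1, lv5, lv6, bet, tau, bf, od, rotM, rotP,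
    neg1, pred0, succ0, pred1, succ1, pred2, succ2, pred3, succ3, gam, z0_0, z0_1, z0_2, z0_3, z0_4, z0_5,
    z0_6, z0_7, z0_8, z0_9, z0_10, z0_11, z0_12]
  ring

lemma dG12 (d : E13) : HasDerivAt (fun s => ar (gam d s) 0 0 0 - (4 + 4 * (gam d s).2.2))
    (2 * d 0 + 4 * d 2 + 2 * d 3 + 4 * d 5 + 2 * d 6) 0 := by
  apply hasDeriv_of_quad (c := ar (gam d 1) 0 0 0 - 8 - (2 * d 0 + 4 * d 2 + 2 * d 3 + 4 * d 5 + 2 * d 6))
  filter_upwards with s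
  simp [ar, X2, Finset.sum_range_succ, lv, lv0, lv1, lv5, lv6, bet, tau, bf, od, rotM, rotP,
    neg1, pred0, succ0, pred1, succ1, pred2, succ2, pred3, succ3, gam, z0_0, z0_1, z0_2, z0_3, z0_4, z0_5,
    z0_6, z0_7, z0_8, z0_9, z0_10, z0_11, z0_12]
  ring

lemma dGG (d : E13) : HasDerivAt (fun s => GG (gam d s)) (Lin d) 0 := by
  rw [hasDerivAt_pi]
  intro i
  fin_cases i
  · exact dG0 d
  · exact dG1 d
  · exact dG2 d
  · exact dG3 d
  · exact dG4 d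
  · exact dG5 d
  · exact dG6 d
  · exact dG7 d
  · exact dG8 d
  · exact dG9 d
  · exact dG10 d
  · exact dG11 d
  · exact dG12 d

lemma GG_x0 : GG x0 = 0 := by
  have hp : ∀ cl a b, per x0 cl a b = 6 := by
    intro cl a b
    have := (per_near 0 cl a b).self_of_nhds
    rw [gam_zero] at this
    rw [this, lv_x0 _ _ _ _ (by omega), lv_x0 _ _ _ _ (by omega), lv_x0 _ _ _ _ (by omega)]
    simp [st]; ring
  have ha : ∀ cl a b, ar x0 cl a b = 8 := by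
    intro cl a b
    unfold ar
    simp only [Finset.sum_range_succ, Finset.sum_range_zero, zero_add, Nat.reduceAdd]
    rw [lv_x0 _ _ _ _ (by omega), lv_x0 _ _ _ _ (by omega), lv_x0 _ _ _ _ (by omega),
      lv_x0 _ _ _ _ (by omega), lv_x0 _ _ _ _ (by omega), lv_x0 _ _ _ _ (by omega),
      lv_x0 _ _ _ _ (by omega)]
    simp [st, X2]; ring
  have hR : x0.2.1 = 0 := rfl
  have hc : x0.2.2 = 1 := rfl
  funext i
  unfold GG
  simp only [hp, ha, hR, hc]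
  fin_cases i <;> simp <;> norm_num

lemma Lin_surj (y : E13) : ∃ d, Lin d = y := by
  obtain ⟨d0, h0⟩ : ∃ t, t = y 0 / 2 := ⟨_, rfl⟩
  obtain ⟨d1, h1⟩ : ∃ t, t = y 1 / 2 := ⟨_, rfl⟩
  obtain ⟨d3, h3⟩ : ∃ t, t = -(y 3) / 2 := ⟨_, rfl⟩
  obtain ⟨d4, h4⟩ : ∃ t, t = -(y 4) / 2 := ⟨_, rfl⟩
  obtain ⟨d10, h10⟩ : ∃ t, t = -(y 5) / 2 := ⟨_, rfl⟩
  obtain ⟨d8, h8⟩ : ∃ t, t = -(y 6) / 2 := ⟨_, rfl⟩
  obtain ⟨d9, h9⟩ : ∃ t, t = (y 7 + d0 - d10 + 2 * d3) / 2 := ⟨_, rfl⟩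
  obtain ⟨d12, h12⟩ : ∃ t, t = -(y 8 + y 9 + 2 * d10 + 2 * d8) / 2 := ⟨_, rfl⟩
  obtain ⟨d11, h11⟩ : ∃ t, t = (y 8 + 2 * d10 + d12) / 2 := ⟨_, rfl⟩
  obtain ⟨d6, h6⟩ : ∃ t, t = d12 - y 2 / 2 := ⟨_, rfl⟩
  obtain ⟨d7, h7⟩ : ∃ t, t = (-(y 10) - d1 - 2 * d4 + d8) / 2 := ⟨_, rfl⟩
  obtain ⟨d2, h2⟩ : ∃ t, t = (d10 + 2 * d12 + d3 + d4 - 2 * d6 + 2 * d7 + d8 - 2 * d9 - y 11) / 2 :=
    ⟨_, rfl⟩
  obtain ⟨d5, h5⟩ : ∃ t, t = (y 12 - 2 * d0 - 4 * d2 - 2 * d3 - 2 * d6) / 4 := ⟨_, rfl⟩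
  refine ⟨![d0, d1, d2, d3, d4, d5, d6, d7, d8, d9, d10, d11, d12], ?_⟩
  funext i
  unfold Lin
  fin_cases i
  · show 2 * d0 = y 0
    linarith
  · show 2 * d1 = y 1
    linarith
  · show 2 * d12 - 2 * d6 = y 2
    linarith
  · show -2 * d3 = y 3
    linarith
  · show -2 * d4 = y 4
    linarith
  · show -2 * d10 = y 5
    linarith
  · show -2 * d8 = y 6
    linarith
  · show -d0 + d10 - 2 * d3 + 2 * d9 = y 7
    linarith
  · show -2 * d10 + 2 * d11 - d12 = y 8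
    linarith
  · show -2 * d11 - d12 - 2 * d8 = y 9
    linarith
  · show -d1 - 2 * d4 - 2 * d7 + d8 = y 10
    linarith
  · show d10 + 2 * d12 - 2 * d2 + d3 + d4 - 2 * d6 + 2 * d7 + d8 - 2 * d9 = y 11
    linarith
  · show 2 * d0 + 4 * d2 + 2 * d3 + 4 * d5 + 2 * d6 = y 12
    linarith

noncomputable def Phi (x : XX) : XX := (GG x, x.2)

lemma fderiv_GG (d : E13) : fderiv ℝ GG x0 (d, (0, 0)) = Lin d := by
  have h1 : HasFDerivAt GG (fderiv ℝ GG x0) (gam d 0) := by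
    rw [gam_zero]
    exact (cd_GG.differentiableAt (by norm_num)).hasFDerivAt
  have h2 : HasDerivAt (gam d) (d, ((0 : ℝ), (0 : ℝ))) 0 := by
    unfold gam
    have h3 : HasDerivAt (fun s : ℝ => z0 + s • d) d 0 := by
      have := ((hasDerivAt_id (0 : ℝ)).smul_const d).const_add z0
      simpa using this
    exact h3.prodMk ((hasDerivAt_const 0 0).prodMk (hasDerivAt_const 0 1))
  have h4 := h1.comp_hasDerivAt 0 h2
  exact h4.unique (dGG d)

theorem exists_sol {P : XX → Prop} (hP : ∀ᶠ x in 𝓝 x0, P x) :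
    ∃ ε > 0, ∀ R c : ℝ, |R| < ε → |c - 1| < ε → ∃ z : E13, GG (z, R, c) = 0 ∧ P (z, R, c) := by
  have hs : HasStrictFDerivAt Phi ((fderiv ℝ GG x0).prod (ContinuousLinearMap.snd ℝ E13 (ℝ × ℝ)))
      x0 := by
    unfold Phi
    exact (cd_GG.hasStrictFDerivAt (by norm_num)).prodMk hasStrictFDerivAt_snd
  have hsurj : ((fderiv ℝ GG x0).prod (ContinuousLinearMap.snd ℝ E13 (ℝ × ℝ))).range = ⊤ := by
    rw [LinearMap.range_eq_top]
    rintro ⟨y, w⟩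
    obtain ⟨d, hd⟩ := Lin_surj (y - fderiv ℝ GG x0 (0, w))
    refine ⟨(d, w), ?_⟩
    have h5 : fderiv ℝ GG x0 (d, w) = y := by
      have : ((d, w) : XX) = (d, (0, 0)) + (0, w) := by ext <;> simp
      rw [this, map_add, fderiv_GG, hd]
      simp
    simp [h5]
  have hmap := hs.map_nhds_eq_of_surj hsurj
  have h0 : Phi x0 = ((0 : E13), ((0 : ℝ), (1 : ℝ))) := by
    unfold Phi
    rw [GG_x0]; rfl
  rw [h0] at hmap
  have h6 : Phi '' {x | P x} ∈ 𝓝 ((0 : E13), ((0 : ℝ), (1 : ℝ))) := by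
    rw [← hmap]
    exact image_mem_map hP
  obtain ⟨ε, hε, hball⟩ := Metric.mem_nhds_iff.mp h6
  refine ⟨ε, hε, fun R c hR hc => ?_⟩
  have h7 : ((0 : E13), (R, c)) ∈ Metric.ball ((0 : E13), ((0 : ℝ), (1 : ℝ))) ε := by
    rw [Metric.mem_ball, Prod.dist_eq, Prod.dist_eq]
    simp only [dist_self, Real.dist_eq, sub_zero]
    exact max_lt hε (max_lt hR hc)
  obtain ⟨x, hx, hxe⟩ := hball h7
  refine ⟨x.1, ?_⟩
  have h8 : x.2 = (R, c) := congrArg Prod.snd hxe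
  have h9 : GG x = 0 := congrArg Prod.fst hxe
  have h10 : (x.1, R, c) = x := by rw [← h8]
  rw [h10]
  exact ⟨h9, hx⟩

end Pool.Agent.EqTiling
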